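import Mathlib

/-! Interpolation of arbitrary values at the natural numbers by an entire function. -/

set_option autoImplicit false

namespace Pool.Agent.R229.Interp

open Metric Set Filter Topology

/-- `∏_{k<n} (z-k)` -/
noncomputable def PP (n : ℕ) (z : ℂ) : ℂ := ∏ k ∈ Finset.range n, (z - (k : ℂ))

theorem PP_diff (n : ℕ) : Differentiable ℂ (PP n) := by
  unfold PP
  fun_prop

theorem PP_zero {n k : ℕ} (h : k < n) : PP n k = 0 := by
  unfold PP
  exact Finset.prod_eq_zero (Finset.mem_range.2 h) (by simp)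

theorem PP_ne (n : ℕ) : PP n n ≠ 0 := by
  unfold PP
  rw [Finset.prod_ne_zero_iff]
  intro k hk
  rw [Finset.mem_range] at hk
  rw [sub_ne_zero]
  exact_mod_cast hk.ne'

/-- one term -/
theorem exists_term (n : ℕ) (a : ℂ) : ∃ t : ℂ → ℂ, Differentiable ℂ t ∧ (∀ k : ℕ, k < n + 1 → t k = 0) ∧
    t ((n + 1 : ℕ) : ℂ) = a ∧ ∀ z : ℂ, ‖z‖ ≤ (n + 1 : ℕ) / 2 → ‖t z‖ ≤ (1 / 2 : ℝ) ^ n := by
  obtain ⟨B, hB⟩ := (isCompact_closedBall (0 : ℂ) (((n + 1 : ℕ) : ℝ) / 2)).exists_bound_of_continuousOn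
    (PP_diff (n + 1)).continuous.continuousOn
  have hB0 : 0 ≤ B := (norm_nonneg _).trans (hB 0 (mem_closedBall_self (by positivity)))
  set c : ℂ := a / PP (n + 1) (n + 1 : ℕ) with hc
  have hlim : Tendsto (fun M : ℕ => (‖c‖ * B) * (1 / 2 : ℝ) ^ M) atTop (𝓝 0) := by
    have := tendsto_pow_atTop_nhds_zero_of_lt_one (r := (1 / 2 : ℝ)) (by norm_num) (by norm_num)
    simpa using this.const_mul (‖c‖ * B)
  obtain ⟨M, hM⟩ := (hlim.eventually_le_const (show (0 : ℝ) < (1 / 2 : ℝ) ^ n by positivity)).exists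
  refine ⟨fun z => c * PP (n + 1) z * (z / (n + 1 : ℕ)) ^ M, ?_, ?_, ?_, ?_⟩
  · have := PP_diff (n + 1)
    fun_prop
  · intro k hk
    simp only [PP_zero hk, mul_zero, zero_mul]
  · have h1 : ((n + 1 : ℕ) : ℂ) ≠ 0 := Nat.cast_ne_zero.2 (Nat.succ_ne_zero n)
    simp only [div_self h1, one_pow, mul_one, hc]
    exact div_mul_cancel₀ _ (PP_ne _)
  · intro z hz
    have h1 : ‖PP (n + 1) z‖ ≤ B := hB z (by simpa using hz)
    have h2 : ‖z / ((n + 1 : ℕ) : ℂ)‖ ≤ 1 / 2 := by
      rw [norm_div, Complex.norm_natCast, div_le_iff₀ (by positivity)]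
      linarith
    calc ‖c * PP (n + 1) z * (z / (n + 1 : ℕ)) ^ M‖
        = ‖c‖ * ‖PP (n + 1) z‖ * ‖z / ((n + 1 : ℕ) : ℂ)‖ ^ M := by
          rw [norm_mul, norm_mul, norm_pow]
      _ ≤ ‖c‖ * B * (1 / 2 : ℝ) ^ M := by gcongr
      _ ≤ _ := hM

/-- arbitrary values at the natural numbers -/
theorem interp (b : ℕ → ℂ) : ∃ g : ℂ → ℂ, Differentiable ℂ g ∧ ∀ n : ℕ, g n = b n := by
  choose T hTd hT0 hTn hTb using exists_term
  let G : ℕ → ℂ → ℂ := fun n => Nat.rec (fun _ => b 0)
    (fun n g z => g z + T n (b (n + 1) - g ((n + 1 : ℕ) : ℂ)) z) n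
  have hGs : ∀ n z, G (n + 1) z = G n z + T n (b (n + 1) - G n ((n + 1 : ℕ) : ℂ)) z :=
    fun n z => rfl
  have hG0 : ∀ z, G 0 z = b 0 := fun z => rfl
  have hGd : ∀ n, Differentiable ℂ (G n) := by
    intro n
    induction n with
    | zero => exact differentiable_const _
    | succ n ih =>
      have : G (n + 1) = fun z => G n z + T n (b (n + 1) - G n ((n + 1 : ℕ) : ℂ)) z := by
        funext z; exact hGs n z
      rw [this]
      exact ih.add (hTd n _)
  have hGk : ∀ n, ∀ k : ℕ, k ≤ n → G n k = b k := by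
    intro n
    induction n with
    | zero =>
      intro k hk
      rw [hG0]
      congr 1
      omega
    | succ n ih =>
      intro k hk
      rw [hGs]
      rcases Nat.lt_or_ge k (n + 1) with h | h
      · rw [hT0 n _ k h, add_zero]
        exact ih k (by omega)
      · have : k = n + 1 := by omega
        subst this
        rw [hTn]
        ring
  set F : ℕ → ℂ → ℂ := fun i z => G (i + 1) z - G i z with hF
  have hFd : ∀ i, Differentiable ℂ (F i) := fun i => (hGd (i + 1)).sub (hGd i)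
  have hFb : ∀ i z, ‖z‖ ≤ (i + 1 : ℕ) / 2 → ‖F i z‖ ≤ (1 / 2 : ℝ) ^ i := by
    intro i z hz
    simp only [hF]
    rw [hGs, add_sub_cancel_left]
    exact hTb i _ z hz
  have hgeo : Summable (fun i : ℕ => (1 / 2 : ℝ) ^ i) :=
    summable_geometric_of_lt_one (by norm_num) (by norm_num)
  have hFs : ∀ z, Summable (fun i => F i z) := by
    intro z
    apply Summable.of_norm_bounded_eventually_nat hgeo
    obtain ⟨N, hN⟩ := exists_nat_gt (2 * ‖z‖)
    filter_upwards [eventually_ge_atTop N] with i hi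
    apply hFb
    have : (N : ℝ) ≤ i := by exact_mod_cast hi
    push_cast
    linarith
  refine ⟨fun z => G 0 z + ∑' i, F i z, ?_, ?_⟩
  · intro z0
    obtain ⟨N, hN⟩ := exists_nat_gt (2 * (‖z0‖ + 1))
    have h1 : DifferentiableOn ℂ (fun z => ∑' i, F (i + N) z) (ball 0 (‖z0‖ + 1)) := by
      apply Complex.differentiableOn_tsum_of_summable_norm (u := fun i : ℕ => (1 / 2 : ℝ) ^ (i + N))
      · exact (summable_nat_add_iff N).2 hgeo
      · intro i
        exact (hFd (i + N)).differentiableOn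
      · exact isOpen_ball
      · intro i w hw
        apply hFb
        rw [mem_ball_zero_iff] at hw
        push_cast
        have : (0 : ℝ) ≤ i := Nat.cast_nonneg i
        linarith
    have h2 : (fun z => G 0 z + ∑' i, F i z) =
        fun z => G 0 z + ((∑ i ∈ Finset.range N, F i z) + ∑' i, F (i + N) z) := by
      funext z
      rw [(hFs z).sum_add_tsum_nat_add]
    rw [h2]
    have h3 : DifferentiableAt ℂ (fun z => ∑' i, F (i + N) z) z0 :=
      h1.differentiableAt (isOpen_ball.mem_nhds (by rw [mem_ball_zero_iff]; linarith))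
    have h4 : DifferentiableAt ℂ (fun z => ∑ i ∈ Finset.range N, F i z) z0 :=
      DifferentiableAt.fun_sum fun i _ => hFd i z0
    exact (hGd 0 z0).add (h4.add h3)
  · intro n
    have h1 : ∑' i, F i n = ∑ i ∈ Finset.range n, F i n := by
      apply tsum_eq_sum
      intro i hi
      rw [Finset.mem_range, not_lt] at hi
      simp only [hF]
      rw [hGk (i + 1) n (by omega), hGk i n hi, sub_self]
    show G 0 n + ∑' i, F i n = b n
    rw [h1]
    simp only [hF]
    rw [Finset.sum_range_sub (fun i => G i n), hGk n n le_rfl]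
    ring

/-- arbitrary values along an injective sequence of natural numbers -/
theorem interp_inj (τ : ℕ → ℕ) (hτ : Function.Injective τ) (a : ℕ → ℂ) :
    ∃ g : ℂ → ℂ, Differentiable ℂ g ∧ ∀ n : ℕ, g (τ n) = a n := by
  obtain ⟨g, hg, h⟩ := interp (fun m => a (Function.invFun τ m))
  refine ⟨g, hg, fun n => ?_⟩
  rw [h (τ n), Function.leftInverse_invFun hτ n]

end Pool.Agent.R229.Interp
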