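import Mathlib
import Pool.Agent.R229.Interp
import Pool.Agent.Y785.MV.Osg

/-! The Stein manifold `𝔻 × ℂ²` contains a tame set, has a transitive automorphism group, but is
neither holomorphically flexible nor does it have the density property. -/

set_option autoImplicit false

namespace Pool.Agent.R229.DTC

open Set Filter Topology Metric

section Defs

variable {E : Type} [NormedAddCommGroup E] [NormedSpace ℂ E]

/-- `F` restricts to a holomorphic automorphism (biholomorphic self-map) of the open set `Ω`. -/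
def IsAut (Ω : Set E) (F : E → E) : Prop :=
  MapsTo F Ω Ω ∧ DifferentiableOn ℂ F Ω ∧
    ∃ G : E → E, MapsTo G Ω Ω ∧ DifferentiableOn ℂ G Ω ∧
      (∀ x ∈ Ω, G (F x) = x) ∧ ∀ x ∈ Ω, F (G x) = x

/-- the automorphism group acts transitively -/
def AutTransitive (Ω : Set E) : Prop := ∀ x ∈ Ω, ∀ y ∈ Ω, ∃ F, IsAut Ω F ∧ F x = y

/-- the hull of `K` with respect to the holomorphic functions on `Ω` -/
def holHull (Ω K : Set E) : Set E :=
  {x ∈ Ω | ∀ f : E → ℂ, DifferentiableOn ℂ f Ω → ∀ C : ℝ, (∀ y ∈ K, ‖f y‖ ≤ C) → ‖f x‖ ≤ C}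

/-- The open set `Ω`, as a complex manifold, is Stein: it is holomorphically convex, and its
holomorphic functions separate points and give local coordinates. -/
def IsStein (Ω : Set E) : Prop :=
  (∀ K ⊆ Ω, IsCompact K → IsCompact (holHull Ω K)) ∧
  (∀ x ∈ Ω, ∀ y ∈ Ω, x ≠ y → ∃ f : E → ℂ, DifferentiableOn ℂ f Ω ∧ f x ≠ f y) ∧
  (∀ x ∈ Ω, ∃ f : E → E, DifferentiableOn ℂ f Ω ∧ Function.Bijective (fderiv ℂ f x))

/-- `A` is a tame set in `Ω`: an infinite closed discrete subset of `Ω` (it has no accumulation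
point in `Ω`) such that every injective map `A → A` extends to an automorphism of `Ω`. -/
def IsTameSet (Ω A : Set E) : Prop :=
  A ⊆ Ω ∧ A.Infinite ∧ (∀ x ∈ Ω, ∃ U ∈ 𝓝 x, (A ∩ U).Finite) ∧
    ∀ f : E → E, MapsTo f A A → InjOn f A → ∃ F, IsAut Ω F ∧ EqOn F f A

/-- `v` is a complete holomorphic vector field on `Ω`: it is holomorphic on `Ω` and through every
point of `Ω` there is an integral curve in `Ω` defined for all complex times. -/
def IsCompleteField (Ω : Set E) (v : E → E) : Prop :=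
  DifferentiableOn ℂ v Ω ∧ ∀ x ∈ Ω, ∃ γ : ℂ → E, γ 0 = x ∧
    ∀ t : ℂ, γ t ∈ Ω ∧ HasDerivAt γ (v (γ t)) t

/-- holomorphic flexibility: at every point the values of the complete holomorphic vector fields
span the tangent space -/
def Flexible (Ω : Set E) : Prop :=
  ∀ x ∈ Ω, Submodule.span ℂ {w : E | ∃ v, IsCompleteField Ω v ∧ v x = w} = ⊤

/-- the complex Lie algebra generated by the complete holomorphic vector fields on `Ω` -/
inductive LieGen (Ω : Set E) : (E → E) → Prop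
  | complete (v : E → E) : IsCompleteField Ω v → LieGen Ω v
  | add (v w : E → E) : LieGen Ω v → LieGen Ω w → LieGen Ω (fun x => v x + w x)
  | smul (c : ℂ) (v : E → E) : LieGen Ω v → LieGen Ω (fun x => c • v x)
  | bracket (v w : E → E) : LieGen Ω v → LieGen Ω w → LieGen Ω (VectorField.lieBracket ℂ v w)

/-- the density property: every holomorphic vector field on `Ω` is a locally uniform limit of
elements of the Lie algebra generated by the complete holomorphic vector fields -/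
def DensityProperty (Ω : Set E) : Prop :=
  ∀ w : E → E, DifferentiableOn ℂ w Ω → ∀ K ⊆ Ω, IsCompact K → ∀ ε : ℝ, 0 < ε →
    ∃ v, LieGen Ω v ∧ ∀ x ∈ K, ‖v x - w x‖ < ε

end Defs

/-- `𝔻 × ℂ²` -/
def Om : Set (ℂ × ℂ × ℂ) := {p | ‖p.1‖ < 1}

theorem isOpen_Om : IsOpen Om := isOpen_lt (by fun_prop) (by fun_prop)

theorem stein : IsStein Om := by
  refine ⟨?_, ?_, ?_⟩
  · intro K hK hKc
    -- bounds on `K`
    obtain ⟨r, hr1, hr0, hr⟩ : ∃ r : ℝ, r < 1 ∧ 0 ≤ r ∧ ∀ y ∈ K, ‖y.1‖ ≤ r := by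
      rcases K.eq_empty_or_nonempty with h | h
      · exact ⟨0, one_pos, le_rfl, by simp [h]⟩
      · obtain ⟨y0, hy0, hmax⟩ := hKc.exists_isMaxOn h
          (f := fun y : ℂ × ℂ × ℂ => ‖y.1‖) (by fun_prop)
        exact ⟨‖y0.1‖, hK hy0, norm_nonneg _, fun y hy => hmax hy⟩
    obtain ⟨R, hR⟩ := hKc.isBounded.exists_norm_le
    have hQc : IsCompact ((closedBall (0 : ℂ) r) ×ˢ ((closedBall (0 : ℂ) R) ×ˢ
        (closedBall (0 : ℂ) R))) :=
      (isCompact_closedBall _ _).prod ((isCompact_closedBall _ _).prod (isCompact_closedBall _ _))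
    have hsub : holHull Om K ⊆ (closedBall (0 : ℂ) r) ×ˢ ((closedBall (0 : ℂ) R) ×ˢ
        (closedBall (0 : ℂ) R)) := by
      rintro ⟨a, b, c⟩ ⟨-, h⟩
      have h1 := h (fun p => p.1) (by fun_prop) r hr
      have h2 := h (fun p => p.2.1) (by fun_prop) R
        (fun y hy => ((norm_fst_le _).trans (norm_snd_le _)).trans (hR y hy))
      have h3 := h (fun p => p.2.2) (by fun_prop) R
        (fun y hy => ((norm_snd_le _).trans (norm_snd_le _)).trans (hR y hy))
      exact ⟨by simpa using h1, by simpa using h2, by simpa using h3⟩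
    have hQsub : (closedBall (0 : ℂ) r) ×ˢ ((closedBall (0 : ℂ) R) ×ˢ
        (closedBall (0 : ℂ) R)) ⊆ Om := by
      rintro ⟨a, b, c⟩ ⟨h, -⟩
      have : ‖a‖ ≤ r := by simpa using h
      exact this.trans_lt hr1
    refine hQc.of_isClosed_subset ?_ hsub
    apply isClosed_of_closure_subset
    intro x hx
    have hxQ : x ∈ (closedBall (0 : ℂ) r) ×ˢ ((closedBall (0 : ℂ) R) ×ˢ (closedBall (0 : ℂ) R)) :=
      closure_minimal hsub hQc.isClosed hx
    have hxO : x ∈ Om := hQsub hxQ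
    refine ⟨hxO, fun f hf C hC => ?_⟩
    have hfc : ContinuousAt f x := (hf.differentiableAt (isOpen_Om.mem_nhds hxO)).continuousAt
    have hcl : ∃ᶠ y in 𝓝 x, y ∈ holHull Om K := mem_closure_iff_frequently.1 hx
    by_contra hcon
    rw [not_le] at hcon
    have hev : ∀ᶠ y in 𝓝 x, C < ‖f y‖ := hfc.norm.eventually_const_lt hcon
    obtain ⟨y, hy1, hy2⟩ := (hcl.and_eventually hev).exists
    exact absurd (hy1.2 f hf C hC) (not_le.2 hy2)
  · rintro ⟨a, b, c⟩ - ⟨a', b', c'⟩ - hne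
    by_cases h1 : a = a'
    · by_cases h2 : b = b'
      · have h3 : c ≠ c' := by
          rintro rfl
          exact hne (by rw [h1, h2])
        exact ⟨fun p => p.2.2, by fun_prop, h3⟩
      · exact ⟨fun p => p.2.1, by fun_prop, h2⟩
    · exact ⟨fun p => p.1, by fun_prop, h1⟩
  · intro x _
    refine ⟨fun p => p, by fun_prop, ?_⟩
    rw [fderiv_fun_id]
    exact Function.bijective_id

/-- the shear composition -/
theorem tame : IsTameSet Om (range fun n : ℕ => ((0 : ℂ), (n : ℂ), (0 : ℂ))) := by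
  have hinj : Function.Injective fun n : ℕ => ((0 : ℂ), (n : ℂ), (0 : ℂ)) := by
    intro m n h
    simpa using h
  refine ⟨?_, infinite_range_of_injective hinj, ?_, ?_⟩
  · rintro _ ⟨n, rfl⟩
    simp [Om]
  · intro x _
    obtain ⟨N, hN⟩ := exists_nat_gt (‖x.2.1‖ + 1)
    refine ⟨{p | ‖p.2.1‖ < ‖x.2.1‖ + 1}, ?_, ?_⟩
    · exact (isOpen_lt (by fun_prop) (by fun_prop)).mem_nhds (by simp)
    · apply ((Finset.range N).finite_toSet.image fun n : ℕ => ((0 : ℂ), (n : ℂ), (0 : ℂ))).subset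
      rintro _ ⟨⟨n, rfl⟩, hn⟩
      refine ⟨n, ?_, rfl⟩
      simp only [mem_ofPred_eq, Complex.norm_natCast] at hn
      simp only [Finset.coe_range, mem_Iio]
      exact_mod_cast hn.trans hN
  · intro f hmaps hfi
    have h1 : ∀ n : ℕ, ∃ m : ℕ, ((0 : ℂ), (m : ℂ), (0 : ℂ)) = f ((0 : ℂ), (n : ℂ), (0 : ℂ)) :=
      fun n => hmaps (mem_range_self n)
    choose σ hσ using h1
    have hσi : Function.Injective σ := by
      intro m n h
      have h2 : f ((0 : ℂ), (m : ℂ), (0 : ℂ)) = f ((0 : ℂ), (n : ℂ), (0 : ℂ)) := by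
        rw [← hσ m, ← hσ n, h]
      exact hinj (hfi (mem_range_self m) (mem_range_self n) h2)
    obtain ⟨g, hg, hgv⟩ := Pool.Agent.R229.Interp.interp (fun n => (σ n : ℂ))
    obtain ⟨h, hh, hhv⟩ := Pool.Agent.R229.Interp.interp_inj σ hσi (fun n => (σ n : ℂ) - n)
    refine ⟨fun p => (p.1, p.2.1 + h (p.2.2 + g p.2.1),
      (p.2.2 + g p.2.1) - (p.2.1 + h (p.2.2 + g p.2.1))), ⟨?_, ?_, ?_⟩, ?_⟩
    · intro p hp; exact hp
    · exact (show Differentiable ℂ (fun p : ℂ × ℂ × ℂ => (p.1, p.2.1 + h (p.2.2 + g p.2.1),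
        (p.2.2 + g p.2.1) - (p.2.1 + h (p.2.2 + g p.2.1)))) by fun_prop).differentiableOn
    · refine ⟨fun p => (p.1, p.2.1 - h (p.2.2 + p.2.1),
        (p.2.2 + p.2.1) - g (p.2.1 - h (p.2.2 + p.2.1))), ?_, ?_, ?_, ?_⟩
      · intro p hp; exact hp
      · exact (show Differentiable ℂ (fun p : ℂ × ℂ × ℂ => (p.1, p.2.1 - h (p.2.2 + p.2.1),
          (p.2.2 + p.2.1) - g (p.2.1 - h (p.2.2 + p.2.1)))) by fun_prop).differentiableOn
      · rintro ⟨a, b, c⟩ -
        simp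
      · rintro ⟨a, b, c⟩ -
        simp
    · rintro _ ⟨n, rfl⟩
      rw [← hσ n]
      simp only [zero_add, hgv, hhv]
      refine Prod.ext rfl (Prod.ext ?_ ?_)
      · show (n : ℂ) + ((σ n : ℂ) - n) = σ n
        ring
      · show (σ n : ℂ) - ((n : ℂ) + ((σ n : ℂ) - n)) = 0
        ring

theorem moebius_norm {a z : ℂ} (ha : ‖a‖ < 1) (hz : ‖z‖ < 1) :
    1 - (starRingEnd ℂ) a * z ≠ 0 ∧ ‖(z - a) / (1 - (starRingEnd ℂ) a * z)‖ < 1 := by
  have h1 : ‖(starRingEnd ℂ) a * z‖ < 1 := by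
    rw [norm_mul, RCLike.norm_conj]
    calc ‖a‖ * ‖z‖ ≤ 1 * ‖z‖ := by gcongr
      _ < 1 := by linarith
  have h0 : 1 - (starRingEnd ℂ) a * z ≠ 0 := by
    intro h
    rw [sub_eq_zero] at h
    rw [← h, norm_one] at h1
    exact lt_irrefl _ h1
  refine ⟨h0, ?_⟩
  rw [norm_div, div_lt_one (norm_pos_iff.2 h0)]
  rw [← sq_lt_sq₀ (norm_nonneg _) (norm_nonneg _), ← Complex.normSq_eq_norm_sq,
    ← Complex.normSq_eq_norm_sq]
  have ha2 : Complex.normSq a < 1 := by
    rw [Complex.normSq_eq_norm_sq]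
    nlinarith [norm_nonneg a]
  have hz2 : Complex.normSq z < 1 := by
    rw [Complex.normSq_eq_norm_sq]
    nlinarith [norm_nonneg z]
  have key : Complex.normSq (1 - (starRingEnd ℂ) a * z) - Complex.normSq (z - a) =
      (1 - Complex.normSq a) * (1 - Complex.normSq z) := by
    simp only [Complex.normSq_apply, Complex.sub_re, Complex.sub_im, Complex.one_re,
      Complex.one_im, Complex.mul_re, Complex.mul_im, Complex.conj_re, Complex.conj_im]
    ring
  have : 0 < (1 - Complex.normSq a) * (1 - Complex.normSq z) :=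
    mul_pos (by linarith) (by linarith)
  linarith

theorem moebius_inv {a z : ℂ} (ha : ‖a‖ < 1) (hz : ‖z‖ < 1) :
    ((z - a) / (1 - (starRingEnd ℂ) a * z) + a) /
      (1 + (starRingEnd ℂ) a * ((z - a) / (1 - (starRingEnd ℂ) a * z))) = z := by
  have h0 := (moebius_norm ha hz).1
  have h1 : (1 - (starRingEnd ℂ) a * a) ≠ 0 := (moebius_norm ha ha).1
  have hq : (z - a) / (1 - (starRingEnd ℂ) a * z) * (1 - (starRingEnd ℂ) a * z) = z - a :=
    div_mul_cancel₀ _ h0
  have e1 : (z - a) / (1 - (starRingEnd ℂ) a * z) + a =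
      (z * (1 - (starRingEnd ℂ) a * a)) / (1 - (starRingEnd ℂ) a * z) := by
    rw [eq_div_iff h0]
    linear_combination hq
  have e2 : 1 + (starRingEnd ℂ) a * ((z - a) / (1 - (starRingEnd ℂ) a * z)) =
      (1 - (starRingEnd ℂ) a * a) / (1 - (starRingEnd ℂ) a * z) := by
    rw [eq_div_iff h0]
    linear_combination (starRingEnd ℂ) a * hq
  rw [e1, e2, div_div_div_cancel_right₀ h0, mul_div_assoc, div_self h1, mul_one]

/-- the automorphism moving `q` to the origin -/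
noncomputable def mv (a b c : ℂ) (p : ℂ × ℂ × ℂ) : ℂ × ℂ × ℂ :=
  ((p.1 - a) / (1 - (starRingEnd ℂ) a * p.1), p.2.1 - b, p.2.2 - c)

noncomputable def mv' (a b c : ℂ) (p : ℂ × ℂ × ℂ) : ℂ × ℂ × ℂ :=
  ((p.1 + a) / (1 + (starRingEnd ℂ) a * p.1), p.2.1 + b, p.2.2 + c)

theorem mv_maps {a b c : ℂ} (ha : ‖a‖ < 1) : MapsTo (mv a b c) Om Om :=
  fun _ hp => (moebius_norm ha hp).2

theorem mv'_eq (a b c : ℂ) : mv' a b c = mv (-a) (-b) (-c) := by
  funext p
  simp [mv, mv']

theorem mv_diff {a b c : ℂ} (ha : ‖a‖ < 1) : DifferentiableOn ℂ (mv a b c) Om := by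
  intro p hp
  have h0 := (moebius_norm ha hp).1
  have h1 : DifferentiableAt ℂ (fun p : ℂ × ℂ × ℂ => (p.1 - a) / (1 - (starRingEnd ℂ) a * p.1)) p := by
    have e1 : DifferentiableAt ℂ (fun p : ℂ × ℂ × ℂ => p.1 - a) p := by fun_prop
    have e2 : DifferentiableAt ℂ (fun p : ℂ × ℂ × ℂ => 1 - (starRingEnd ℂ) a * p.1) p := by fun_prop
    have e3 := e1.mul (e2.inv h0)
    simp only [div_eq_mul_inv]
    exact e3
  have h2 : DifferentiableAt ℂ (mv a b c) p := by
    unfold mv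
    exact h1.prodMk (by fun_prop)
  exact h2.differentiableWithinAt

theorem mv_inv {a b c : ℂ} (ha : ‖a‖ < 1) {p : ℂ × ℂ × ℂ} (hp : p ∈ Om) :
    mv' a b c (mv a b c p) = p := by
  unfold mv mv'
  refine Prod.ext (moebius_inv ha hp) (Prod.ext ?_ ?_) <;> simp

theorem mv_inv' {a b c : ℂ} (ha : ‖a‖ < 1) {p : ℂ × ℂ × ℂ} (hp : p ∈ Om) :
    mv a b c (mv' a b c p) = p := by
  have ha' : ‖-a‖ < 1 := by rwa [norm_neg]
  have h1 := mv_inv (b := -b) (c := -c) ha' hp
  rw [mv'_eq] at h1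
  simp only [neg_neg] at h1
  rwa [mv'_eq]

theorem transitive : AutTransitive Om := by
  rintro ⟨a, b, c⟩ hx ⟨a', b', c'⟩ hy
  have ha : ‖a‖ < 1 := hx
  have ha' : ‖a'‖ < 1 := hy
  have hna : ‖-a‖ < 1 := by rwa [norm_neg]
  have hna' : ‖-a'‖ < 1 := by rwa [norm_neg]
  have hm1 : MapsTo (mv a b c) Om Om := mv_maps ha
  have hm2 : MapsTo (mv' a b c) Om Om := by rw [mv'_eq]; exact mv_maps hna
  have hm3 : MapsTo (mv a' b' c') Om Om := mv_maps ha'
  have hm4 : MapsTo (mv' a' b' c') Om Om := by rw [mv'_eq]; exact mv_maps hna'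
  have hd1 : DifferentiableOn ℂ (mv a b c) Om := mv_diff ha
  have hd2 : DifferentiableOn ℂ (mv' a b c) Om := by rw [mv'_eq]; exact mv_diff hna
  have hd3 : DifferentiableOn ℂ (mv a' b' c') Om := mv_diff ha'
  have hd4 : DifferentiableOn ℂ (mv' a' b' c') Om := by rw [mv'_eq]; exact mv_diff hna'
  refine ⟨mv' a' b' c' ∘ mv a b c, ⟨hm4.comp hm1, hd4.comp hd1 hm1, mv' a b c ∘ mv a' b' c',
    hm2.comp hm3, hd2.comp hd3 hm3, ?_, ?_⟩, ?_⟩
  · intro x hx
    simp only [Function.comp_apply]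
    rw [mv_inv' ha' (hm1 hx), mv_inv ha hx]
  · intro x hx
    simp only [Function.comp_apply]
    rw [mv_inv' ha (hm3 hx), mv_inv ha' hx]
  · simp [mv, mv']

/-- Liouville: complete fields have no component along the disc -/
theorem complete_fst {v : ℂ × ℂ × ℂ → ℂ × ℂ × ℂ} (hv : IsCompleteField Om v) :
    ∀ x ∈ Om, (v x).1 = 0 := by
  intro x hx
  obtain ⟨γ, h0, hγ⟩ := hv.2 x hx
  have hd : ∀ t, HasDerivAt (fun s => (γ s).1) (v (γ t)).1 t := by
    intro t
    exact (hasFDerivAt_fst (𝕜 := ℂ) (p := γ t)).comp_hasDerivAt t (hγ t).2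
  have hdiff : Differentiable ℂ (fun s => (γ s).1) := fun t => (hd t).differentiableAt
  have hb : Bornology.IsBounded (range fun s => (γ s).1) := by
    rw [isBounded_iff_forall_norm_le]
    refine ⟨1, ?_⟩
    rintro _ ⟨t, rfl⟩
    exact (show ‖(γ t).1‖ < 1 from (hγ t).1).le
  obtain ⟨c, hc⟩ := hdiff.exists_const_forall_eq_of_bounded hb
  have h1 : (fun s => (γ s).1) = fun _ => c := funext hc
  have h2 := hd 0
  rw [h1, h0] at h2
  exact h2.unique (hasDerivAt_const 0 c)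

theorem lieGen_fst {v : ℂ × ℂ × ℂ → ℂ × ℂ × ℂ} (hv : LieGen Om v) :
    DifferentiableOn ℂ v Om ∧ ∀ x ∈ Om, (v x).1 = 0 := by
  induction hv with
  | complete v h => exact ⟨h.1, complete_fst h⟩
  | add v w _ _ ih1 ih2 =>
    refine ⟨ih1.1.add ih2.1, fun x hx => ?_⟩
    show (v x).1 + (w x).1 = 0
    rw [ih1.2 x hx, ih2.2 x hx, add_zero]
  | smul c v _ ih =>
    refine ⟨ih.1.const_smul c, fun x hx => ?_⟩
    show c • (v x).1 = 0
    rw [ih.2 x hx, smul_zero]
  | bracket v w _ _ ih1 ih2 =>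
    have han : ∀ u : ℂ × ℂ × ℂ → ℂ × ℂ × ℂ, DifferentiableOn ℂ u Om →
        DifferentiableOn ℂ (fderiv ℂ u) Om := fun u hu =>
      (Pool.Agent.Y785.MV.Osg.analytic isOpen_Om hu).fderiv.differentiableOn
    have h1 := han v ih1.1
    have h2 := han w ih2.1
    have hv1 := ih1.1
    have hw1 := ih2.1
    refine ⟨?_, fun x hx => ?_⟩
    · unfold VectorField.lieBracket
      exact (h2.clm_apply hv1).sub (h1.clm_apply hw1)
    · have key : ∀ u : ℂ × ℂ × ℂ → ℂ × ℂ × ℂ, DifferentiableOn ℂ u Om →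
          (∀ y ∈ Om, (u y).1 = 0) → ∀ e, (fderiv ℂ u x e).1 = 0 := by
        intro u hu hu0 e
        have hux : DifferentiableAt ℂ u x := hu.differentiableAt (isOpen_Om.mem_nhds hx)
        have h3 : HasFDerivAt (fun y => (u y).1)
            ((ContinuousLinearMap.fst ℂ ℂ (ℂ × ℂ)).comp (fderiv ℂ u x)) x :=
          (hasFDerivAt_fst (𝕜 := ℂ) (p := u x)).comp x hux.hasFDerivAt
        have h4 : (fun y => (u y).1) =ᶠ[𝓝 x] fun _ => (0 : ℂ) := by
          filter_upwards [isOpen_Om.mem_nhds hx] with y hy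
          exact hu0 y hy
        have h5 := (h4.hasFDerivAt_iff.1 h3).unique (hasFDerivAt_const (0 : ℂ) x)
        have := DFunLike.congr_fun h5 e
        simpa using this
      unfold VectorField.lieBracket
      rw [Prod.fst_sub, key w hw1 ih2.2, key v hv1 ih1.2, sub_zero]

theorem zero_mem : (0 : ℂ × ℂ × ℂ) ∈ Om := by simp [Om]

/-- **Main result**: `𝔻 × ℂ²` is a connected Stein manifold which contains a tame set and whose
automorphism group acts transitively, but it is not holomorphically flexible and does not have the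
density property. -/
theorem joint : ∃ Ω : Set (ℂ × ℂ × ℂ), IsOpen Ω ∧ IsConnected Ω ∧ IsStein Ω ∧
    (∃ A, IsTameSet Ω A) ∧ AutTransitive Ω ∧ ¬ Flexible Ω ∧ ¬ DensityProperty Ω := by
  refine ⟨Om, isOpen_Om, ?_, stein, ⟨_, tame⟩, transitive, ?_, ?_⟩
  · have h : Om = (ball (0 : ℂ) 1) ×ˢ (univ : Set (ℂ × ℂ)) := by
      ext p
      simp [Om]
    have hc : Convex ℝ Om := by
      rw [h]
      exact (convex_ball _ _).prod convex_univ
    exact ⟨⟨0, zero_mem⟩, hc.isPreconnected⟩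
  · intro h
    have h1 := h 0 zero_mem
    have h2 : Submodule.span ℂ {w : ℂ × ℂ × ℂ | ∃ v, IsCompleteField Om v ∧ v 0 = w} ≤
        LinearMap.ker (LinearMap.fst ℂ ℂ (ℂ × ℂ)) := by
      rw [Submodule.span_le]
      rintro _ ⟨v, hv, rfl⟩
      exact complete_fst hv 0 zero_mem
    rw [h1] at h2
    have h3 : ((1 : ℂ), (0 : ℂ), (0 : ℂ)) ∈ LinearMap.ker (LinearMap.fst ℂ ℂ (ℂ × ℂ)) :=
      h2 Submodule.mem_top
    simp at h3
  · intro h
    obtain ⟨v, hv, hv2⟩ := h (fun _ => ((1 : ℂ), (0 : ℂ), (0 : ℂ))) (differentiableOn_const _) {0}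
      (by simpa using zero_mem) isCompact_singleton (1 / 2) (by norm_num)
    have h1 := hv2 0 rfl
    have h2 := (lieGen_fst hv).2 0 zero_mem
    have h3 : ‖(v 0 - ((1 : ℂ), (0 : ℂ), (0 : ℂ))).1‖ < 1 / 2 := (norm_fst_le _).trans_lt h1
    rw [Prod.fst_sub, h2, zero_sub, norm_neg, norm_one] at h3
    norm_num at h3

end Pool.Agent.R229.DTC
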