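import Mathlib

/-! # Core and nucleus of a compact set: definitions -/

set_option autoImplicit false

open scoped Manifold ContDiff Topology
open Set

namespace Pool.Agent.R229.Nucl

/-- The model space `ℂⁿ` with its Hermitian norm. -/
abbrev E (n : ℕ) : Type := EuclideanSpace ℂ (Fin n)

section

variable {n : ℕ} {M : Type} [TopologicalSpace M] [ChartedSpace (E n) M]

/-- The Levi form (complex Hessian) of `f` at the point `ζ` in the direction `v`, computed in the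
preferred holomorphic chart at `ζ`: it is `(D²f(v,v) + D²f(iv,iv)) / 4`. -/
noncomputable def leviForm (f : M → ℝ) (ζ : M) (v : E n) : ℝ :=
  (iteratedDeriv 2 (fun s : ℝ => f ((extChartAt 𝓘(ℂ, E n) ζ).symm
      (extChartAt 𝓘(ℂ, E n) ζ ζ + (s : ℂ) • v))) 0 +
    iteratedDeriv 2 (fun s : ℝ => f ((extChartAt 𝓘(ℂ, E n) ζ).symm
      (extChartAt 𝓘(ℂ, E n) ζ ζ + (s : ℂ) • (Complex.I • v)))) 0) / 4

/-- `f` is smooth and plurisubharmonic on the open set `W`. -/
def SmoothPSH (f : M → ℝ) (W : Set M) : Prop :=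
  ContMDiffOn 𝓘(ℝ, E n) 𝓘(ℝ, ℝ) ∞ f W ∧ ∀ x ∈ W, ∀ v : E n, 0 ≤ leviForm f x v

/-- The Levi form of `f` at `ζ` is positive definite. -/
def StrictAt (f : M → ℝ) (ζ : M) : Prop := ∀ v : E n, v ≠ 0 → 0 < leviForm f ζ v

/-- The core of `K`: the points of `K` at which no function which is smooth and plurisubharmonic
on some neighbourhood of `K` is strictly plurisubharmonic. -/
def core (K : Set M) : Set M :=
  {ζ | ζ ∈ K ∧ ¬ ∃ W : Set M, IsOpen W ∧ K ⊆ W ∧ ∃ f : M → ℝ,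
    SmoothPSH (n := n) f W ∧ StrictAt (n := n) f ζ}

/-- The spherical part of the boundary of a spherical hat. -/
def cap (n : ℕ) [NeZero n] (r : ℝ) : Set (E n) := {z | ‖z‖ = 1 ∧ r ≤ (z 0).re}

/-- The spherical hat. -/
def hat (n : ℕ) [NeZero n] (r : ℝ) : Set (E n) := {z | ‖z‖ ≤ 1 ∧ r ≤ (z 0).re}

/-- `K₂` arises from `K₁` by a spherical cut. -/
def SphericalCut (n : ℕ) [NeZero n] {M : Type} [TopologicalSpace M] [ChartedSpace (E n) M]
    (K₁ K₂ : Set M) : Prop :=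
  IsCompact K₁ ∧ IsCompact K₂ ∧ ∃ r : ℝ, 0 < r ∧ r < 1 ∧ ∃ (U : Set (E n)) (Φ : E n → M),
    IsOpen U ∧ hat n r ⊆ U ∧ MDifferentiableOn 𝓘(ℂ, E n) 𝓘(ℂ, E n) Φ U ∧ InjOn Φ U ∧
    Disjoint (Φ '' cap n r) K₁ ∧ K₂ = K₁ \ Φ '' interior (hat n r)

/-- The nucleus of `K`: the intersection of all compact sets obtained from `K` by a finite chain
of successive spherical cuts. -/
def nucleus (n : ℕ) [NeZero n] {M : Type} [TopologicalSpace M] [ChartedSpace (E n) M]
    (K : Set M) : Set M :=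
  {x | ∀ K' : Set M, Relation.ReflTransGen (SphericalCut n) K K' → x ∈ K'}

end

end Pool.Agent.R229.Nucl
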