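import Mathlib
import Pool.Agent.R229.NuclDefs

/-! # Sweeping by complex lines -/

set_option autoImplicit false

open scoped Manifold ContDiff Topology
open Set Metric

namespace Pool.Agent.R229.Nucl

/-- A Hurwitz type statement: a zero of a non-trivial holomorphic function persists. -/
lemma hurwitz (G : ℝ → ℂ → ℂ) (ζ₀ : ℂ) (ρ : ℝ) (hρ : 0 < ρ)
    (hc : ContinuousOn (fun p : ℝ × ℂ => G p.1 p.2) (closedBall (0 : ℝ) ρ ×ˢ closedBall ζ₀ ρ))
    (hd : ∀ ε ∈ closedBall (0 : ℝ) ρ, ∀ ζ ∈ ball ζ₀ ρ, DifferentiableAt ℂ (G ε) ζ)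
    (h0 : G 0 ζ₀ = 0) (hn : ¬ ∀ᶠ ζ in 𝓝 ζ₀, G 0 ζ = 0) :
    ∃ ε : ℝ, 0 < ε ∧ ε ≤ ρ ∧ ∃ ζ ∈ closedBall ζ₀ ρ, G ε ζ = 0 := by
  have hmem0 : (0 : ℝ) ∈ closedBall (0 : ℝ) ρ := by simp [hρ.le]
  have han : AnalyticAt ℂ (G 0) ζ₀ := by
    have : DifferentiableOn ℂ (G 0) (ball ζ₀ ρ) := fun ζ hζ =>
      (hd 0 hmem0 ζ hζ).differentiableWithinAt
    exact this.analyticAt (ball_mem_nhds ζ₀ hρ)
  rcases han.eventually_eq_zero_or_eventually_ne_zero with h | h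
  · exact absurd h hn
  rw [eventually_nhdsWithin_iff, Metric.eventually_nhds_iff] at h
  obtain ⟨δ, hδ, h⟩ := h
  set ρ' : ℝ := min ρ δ / 2 with hρ'
  have hρ'0 : 0 < ρ' := by positivity
  have hρ'1 : ρ' < ρ := by
    have := min_le_left ρ δ
    rw [hρ']; linarith
  have hρ'2 : ρ' < δ := by
    have := min_le_right ρ δ
    rw [hρ']; linarith
  have hne : ∀ ζ ∈ sphere ζ₀ ρ', G 0 ζ ≠ 0 := by
    intro ζ hζ
    rw [mem_sphere] at hζ
    refine h (by rw [hζ]; exact hρ'2) ?_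
    rw [mem_compl_iff, mem_singleton_iff]
    rintro rfl
    rw [dist_self] at hζ
    exact hρ'0.ne hζ
  have hsub : closedBall ζ₀ ρ' ⊆ closedBall ζ₀ ρ := closedBall_subset_closedBall hρ'1.le
  -- lower bound on the circle
  have hcomp : IsCompact (sphere ζ₀ ρ') := isCompact_sphere _ _
  have hcont0 : ContinuousOn (fun ζ => ‖G 0 ζ‖) (sphere ζ₀ ρ') := by
    have h1 : ContinuousOn (fun ζ : ℂ => ((0 : ℝ), ζ)) (sphere ζ₀ ρ') := by fun_prop
    exact (hc.comp h1 (fun ζ hζ => ⟨hmem0, hsub (sphere_subset_closedBall hζ)⟩)).norm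
  have hnes : (sphere ζ₀ ρ').Nonempty := NormedSpace.sphere_nonempty.mpr hρ'0.le
  obtain ⟨ζm, hζm, hm⟩ := hcomp.exists_isMinOn hnes hcont0
  set m : ℝ := ‖G 0 ζm‖ with hmdef
  have hm0 : 0 < m := norm_pos_iff.mpr (hne ζm hζm)
  have hm' : ∀ ζ ∈ sphere ζ₀ ρ', m ≤ ‖G 0 ζ‖ := fun ζ hζ => hm hζ
  -- uniform continuity
  have hcompP : IsCompact (closedBall (0 : ℝ) ρ ×ˢ closedBall ζ₀ ρ) :=
    (isCompact_closedBall _ _).prod (isCompact_closedBall _ _)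
  have huc := hcompP.uniformContinuousOn_of_continuous hc
  rw [Metric.uniformContinuousOn_iff] at huc
  obtain ⟨d, hd0, huc⟩ := huc (m / 2) (by positivity)
  set ε : ℝ := min ρ (d / 2) with hε
  have hε0 : 0 < ε := by positivity
  have hε1 : ε ≤ ρ := min_le_left _ _
  have hε2 : ε < d := lt_of_le_of_lt (min_le_right _ _) (by linarith)
  have hεmem : ε ∈ closedBall (0 : ℝ) ρ := by
    rw [mem_closedBall, Real.dist_eq, sub_zero, abs_of_pos hε0]; exact hε1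
  have hclose : ∀ ζ ∈ closedBall ζ₀ ρ, ‖G ε ζ - G 0 ζ‖ < m / 2 := by
    intro ζ hζ
    have := huc (ε, ζ) ⟨hεmem, hζ⟩ (0, ζ) ⟨hmem0, hζ⟩ (by
      rw [Prod.dist_eq, dist_self, Real.dist_eq, sub_zero, abs_of_pos hε0]
      simpa using ⟨hε2, hd0⟩)
    rwa [dist_eq_norm] at this
  refine ⟨ε, hε0, hε1, ?_⟩
  by_contra hcon
  push Not at hcon
  have hnz : ∀ ζ ∈ closedBall ζ₀ ρ', G ε ζ ≠ 0 := fun ζ hζ => hcon ζ (hsub hζ)
  have hdc : DiffContOnCl ℂ (fun ζ => (G ε ζ)⁻¹) (ball ζ₀ ρ') := by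
    have h1 : DifferentiableOn ℂ (fun ζ => (G ε ζ)⁻¹) (closedBall ζ₀ ρ') := by
      intro ζ hζ
      have h2 := hd ε hεmem ζ (closedBall_subset_ball hρ'1 hζ)
      exact (h2.inv (hnz ζ hζ)).differentiableWithinAt
    exact h1.diffContOnCl_ball (subset_refl _)
  have hbound : ∀ z ∈ frontier (ball ζ₀ ρ'), ‖(G ε z)⁻¹‖ ≤ 2 / m := by
    intro z hz
    rw [frontier_ball _ hρ'0.ne'] at hz
    rw [norm_inv]
    have h1 := hm' z hz
    have h2 := hclose z (hsub (sphere_subset_closedBall hz))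
    have h3 : m / 2 ≤ ‖G ε z‖ := by
      have h4 : ‖G 0 z‖ ≤ ‖G ε z‖ + ‖G ε z - G 0 z‖ := by
        have h5 : G 0 z = G ε z - (G ε z - G 0 z) := by ring
        calc ‖G 0 z‖ = ‖G ε z - (G ε z - G 0 z)‖ := by rw [← h5]
          _ ≤ _ := norm_sub_le _ _
      linarith
    calc ‖G ε z‖⁻¹ ≤ (m / 2)⁻¹ := by
          apply inv_anti₀ (by positivity) h3
      _ = 2 / m := by rw [inv_div]
  have hmax := Complex.norm_le_of_forall_mem_frontier_norm_le isBounded_ball hdc hbound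
    (subset_closure (mem_ball_self hρ'0))
  have h6 := hclose ζ₀ (mem_closedBall_self hρ.le)
  rw [h0, sub_zero] at h6
  rw [norm_inv] at hmax
  have h7 : 0 < ‖G ε ζ₀‖ := norm_pos_iff.mpr (hnz ζ₀ (mem_closedBall_self hρ'0.le))
  have h8 : (m / 2)⁻¹ < ‖G ε ζ₀‖⁻¹ := by
    apply inv_strictAnti₀ h7 h6
  rw [inv_div] at h8
  linarith

/-- the point `(x, y)` of `ℂ²` -/
noncomputable def mk2 (x y : ℂ) : E 2 := !₂[x, y]

@[simp] lemma mk2_zero (x y : ℂ) : mk2 x y 0 = x := rfl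
@[simp] lemma mk2_one (x y : ℂ) : mk2 x y 1 = y := rfl

lemma eq_mk2 (z : E 2) : z = mk2 (z 0) (z 1) := by
  ext i
  fin_cases i <;> rfl

lemma continuous_mk2 : Continuous (fun p : ℂ × ℂ => mk2 p.1 p.2) := by
  unfold mk2
  apply (PiLp.continuous_toLp 2 _).comp
  apply continuous_pi
  intro i
  fin_cases i
  · exact continuous_fst
  · exact continuous_snd

lemma mk2_eq_add (x y : ℂ) : mk2 x y = mk2 x 0 + y • mk2 0 1 := by
  ext i
  fin_cases i <;> simp [mk2]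

lemma differentiable_mk2 (x : ℂ) : Differentiable ℂ (fun y : ℂ => mk2 x y) := by
  have : (fun y : ℂ => mk2 x y) = fun y : ℂ => mk2 x 0 + y • mk2 0 1 := by
    funext y; exact mk2_eq_add x y
  rw [this]
  fun_prop

lemma sweep (r : ℝ) (C : Set (E 2)) (hC : IsCompact C) (hsub : C ⊆ hat 2 r)
    (hcap : ∀ z ∈ C, ‖z‖ ≠ 1)
    (hloc : ∀ z₀ ∈ C, r < (z₀ 0).re → ‖z₀‖ < 1 → ∃ F : E 2 → ℂ,
      (∀ᶠ z in 𝓝 z₀, DifferentiableAt ℂ F z) ∧ F z₀ = 0 ∧ ∀ᶠ z in 𝓝 z₀, F z = 0 → z ∈ C) :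
    ∀ z ∈ C, (z 0).re ≤ r := by
  intro zs hzs
  by_contra hlt
  push Not at hlt
  have hcont : Continuous (fun z : E 2 => (z 0).re) := by fun_prop
  obtain ⟨z₀, hz₀, hmax⟩ := hC.exists_isMaxOn ⟨zs, hzs⟩ hcont.continuousOn
  have hm : r < (z₀ 0).re := lt_of_lt_of_le hlt (hmax hzs)
  have hmax' : ∀ z ∈ C, (z 0).re ≤ (z₀ 0).re := fun z hz => hmax hz
  set a : ℂ := z₀ 0 with ha
  set T : Set ℂ := {ζ | mk2 a ζ ∈ C} with hT
  have hmkc : Continuous (fun ζ : ℂ => mk2 a ζ) := (differentiable_mk2 a).continuous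
  have hTclosed : IsClosed T := hC.isClosed.preimage hmkc
  have hTne : T.Nonempty := ⟨z₀ 1, by
    change mk2 (z₀ 0) (z₀ 1) ∈ C
    rw [← eq_mk2]; exact hz₀⟩
  have hTopen : IsOpen T := by
    rw [isOpen_iff_mem_nhds]
    intro ζ₀ hζ₀
    have hzC : mk2 a ζ₀ ∈ C := hζ₀
    have hnorm : ‖mk2 a ζ₀‖ < 1 :=
      lt_of_le_of_ne (hsub hzC).1 (hcap _ hzC)
    obtain ⟨F, hF1, hF2, hF3⟩ := hloc (mk2 a ζ₀) hzC (by simpa using hm) hnorm
    by_cases hn : ∀ᶠ ζ in 𝓝 ζ₀, F (mk2 a ζ) = 0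
    · have h1 : ∀ᶠ ζ in 𝓝 ζ₀, F (mk2 a ζ) = 0 → mk2 a ζ ∈ C :=
        hmkc.continuousAt.eventually hF3
      filter_upwards [hn, h1] with ζ h2 h3
      exact h3 h2
    · exfalso
      -- parametrization
      have hpc : Continuous (fun p : ℝ × ℂ => mk2 (a + (p.1 : ℂ)) p.2) :=
        continuous_mk2.comp
          (f := fun p : ℝ × ℂ => ((a + (p.1 : ℂ), p.2) : ℂ × ℂ)) (by fun_prop)
      have hall : ∀ᶠ p : ℝ × ℂ in 𝓝 ((0 : ℝ), ζ₀),
          DifferentiableAt ℂ F (mk2 (a + (p.1 : ℂ)) p.2) ∧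
          (F (mk2 (a + (p.1 : ℂ)) p.2) = 0 → mk2 (a + (p.1 : ℂ)) p.2 ∈ C) := by
        have h1 : ∀ᶠ z in 𝓝 (mk2 (a + ((0 : ℝ) : ℂ)) ζ₀),
            DifferentiableAt ℂ F z ∧ (F z = 0 → z ∈ C) := by
          rw [Complex.ofReal_zero, add_zero]
          exact hF1.and hF3
        exact (hpc.continuousAt (x := ((0 : ℝ), ζ₀))).eventually h1
      rw [Metric.eventually_nhds_iff_ball] at hall
      obtain ⟨δ, hδ, hall⟩ := hall
      have hin : ∀ ε ∈ closedBall (0 : ℝ) (δ / 2), ∀ ζ ∈ closedBall ζ₀ (δ / 2),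
          ((ε, ζ) : ℝ × ℂ) ∈ ball ((0 : ℝ), ζ₀) δ := by
        intro ε hε ζ hζ
        rw [mem_ball, Prod.dist_eq]
        rw [mem_closedBall] at hε hζ
        exact max_lt (by simpa using lt_of_le_of_lt hε (by linarith))
          (by simpa using lt_of_le_of_lt hζ (by linarith))
      obtain ⟨ε, hε0, hε1, ζ, hζ, hz⟩ := hurwitz (fun ε ζ => F (mk2 (a + (ε : ℂ)) ζ)) ζ₀ (δ / 2)
        (by positivity) (by
          rintro ⟨ε, ζ⟩ ⟨hε, hζ⟩
          have h1 := (hall _ (hin ε hε ζ hζ)).1.continuousAt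
          exact (ContinuousAt.comp (f := fun p : ℝ × ℂ => mk2 (a + (p.1 : ℂ)) p.2)
            (x := ((ε, ζ) : ℝ × ℂ)) h1 hpc.continuousAt).continuousWithinAt)
        (by
          intro ε hε ζ hζ
          have h1 := (hall _ (hin ε hε ζ (ball_subset_closedBall hζ))).1
          exact DifferentiableAt.comp ζ h1 (differentiable_mk2 _ ζ))
        (by simpa using hF2) (by simpa using hn)
      have hεmem : ε ∈ closedBall (0 : ℝ) (δ / 2) := by
        rw [mem_closedBall, Real.dist_eq, sub_zero, abs_of_pos hε0]; exact hε1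
      have hC' := (hall _ (hin ε hεmem ζ hζ)).2 hz
      have := hmax' _ hC'
      simp at this
      linarith
  have hclopen : IsClopen T := ⟨hTclosed, hTopen⟩
  have huniv : T = univ := hclopen.eq_univ hTne
  have hTcomp : IsCompact T := by
    have h1 : T = (fun z : E 2 => z 1) '' (C ∩ {z | z 0 = a}) := by
      ext ζ
      constructor
      · intro h
        exact ⟨mk2 a ζ, ⟨h, rfl⟩, rfl⟩
      · rintro ⟨z, ⟨hz, hz0⟩, rfl⟩
        change mk2 a (z 1) ∈ C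
        have : mk2 a (z 1) = z := by
          rw [← hz0]; exact (eq_mk2 z).symm
        rw [this]; exact hz
    rw [h1]
    apply IsCompact.image
    · apply hC.inter_right
      exact isClosed_eq (by fun_prop) continuous_const
    · fun_prop
  rw [huniv] at hTcomp
  exact noncompact_univ ℂ hTcomp

end Pool.Agent.R229.Nucl
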