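import Mathlib
import Pool.Agent.R229.NuclSweep

/-! # The plurisubharmonic function -/

set_option autoImplicit false

open scoped Manifold ContDiff Topology
open Set Metric

namespace Pool.Agent.R229.Nucl

lemma second (c : ℝ) (η η1 η2 p p1 p2 q q1 q2 : ℝ → ℝ)
    (hη : ∀ t, HasDerivAt η (η1 t) t) (hη1 : ∀ t, HasDerivAt η1 (η2 t) t)
    (hp : ∀ t, HasDerivAt p (p1 t) t) (hp1 : ∀ t, HasDerivAt p1 (p2 t) t)
    (hq : ∀ t, HasDerivAt q (q1 t) t) (hq1 : ∀ t, HasDerivAt q1 (q2 t) t) :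
    iteratedDeriv 2 (fun s => c * p s + η (p s) * q s) 0 =
      c * p2 0 + (η2 (p 0) * p1 0 * p1 0 + η1 (p 0) * p2 0) * q 0 +
        2 * (η1 (p 0) * p1 0 * q1 0) + η (p 0) * q2 0 := by
  have h1 : deriv (fun s => c * p s + η (p s) * q s) =
      fun s => c * p1 s + ((η1 (p s) * p1 s) * q s + η (p s) * q1 s) := by
    funext s
    have := (hp s).const_mul c |>.add (((hη (p s)).comp s (hp s)).mul (hq s))
    exact this.deriv
  have h2 : HasDerivAt (fun s => c * p1 s + ((η1 (p s) * p1 s) * q s + η (p s) * q1 s))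
      (c * p2 0 + (((η2 (p 0) * p1 0) * p1 0 + η1 (p 0) * p2 0) * q 0 +
        (η1 (p 0) * p1 0) * q1 0 + ((η1 (p 0) * p1 0) * q1 0 + η (p 0) * q2 0))) 0 := by
    have := ((hp1 0).const_mul c).add
      ((((((hη1 (p 0)).comp 0 (hp 0)).mul (hp1 0))).mul (hq 0)).add
        (((hη (p 0)).comp 0 (hp 0)).mul (hq1 0)))
    exact this
  rw [iteratedDeriv_succ, iteratedDeriv_one, h1, h2.deriv]
  ring

/-- the periodic function in the first variable -/
noncomputable def per (z : ℂ) : ℝ := 2 - Real.cos (2 * Real.pi * z.re) - Real.cos (2 * Real.pi * z.im)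

/-- the cutoff -/
noncomputable def th (t : ℝ) : ℝ := expNegInvGlue (1 / 2 - t)

/-- the function on `ℂ²` -/
noncomputable def G (c : ℝ) (v : E 2) : ℝ :=
  c * Complex.normSq (v 1) + (th (Complex.normSq (v 1))) ^ 2 * per (v 0)

/-- derivatives of the cutoff -/
lemma th_smooth : ContDiff ℝ ∞ th := by
  unfold th
  exact expNegInvGlue.contDiff.comp (contDiff_const.sub contDiff_id)

noncomputable def th1 : ℝ → ℝ := deriv th
noncomputable def th2 : ℝ → ℝ := deriv th1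

lemma th1_smooth : ContDiff ℝ ∞ th1 := by
  have := (contDiff_infty_iff_deriv.mp th_smooth).2
  exact this

lemma th2_cont : Continuous th2 := by
  have := (contDiff_infty_iff_deriv.mp th1_smooth).2
  exact this.continuous

lemma th_deriv (t : ℝ) : HasDerivAt th (th1 t) t :=
  ((contDiff_infty_iff_deriv.mp th_smooth).1 t).hasDerivAt

lemma th1_deriv (t : ℝ) : HasDerivAt th1 (th2 t) t :=
  ((contDiff_infty_iff_deriv.mp th1_smooth).1 t).hasDerivAt

lemma th_zero_of {t : ℝ} (ht : 1 / 2 < t) : th t = 0 ∧ th1 t = 0 ∧ th2 t = 0 := by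
  have h0 : ∀ s : ℝ, 1 / 2 < s → th s = 0 := fun s hs =>
    expNegInvGlue.zero_of_nonpos (by linarith)
  have hev : ∀ s : ℝ, 1 / 2 < s → th =ᶠ[𝓝 s] fun _ => (0 : ℝ) := fun s hs => by
    filter_upwards [lt_mem_nhds hs] with u hu using h0 u hu
  have h1 : ∀ s : ℝ, 1 / 2 < s → th1 s = 0 := fun s hs => by
    unfold th1
    rw [(hev s hs).deriv_eq]; simp
  have hev1 : th1 =ᶠ[𝓝 t] fun _ => (0 : ℝ) := by
    filter_upwards [lt_mem_nhds ht] with u hu using h1 u hu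
  refine ⟨h0 t ht, h1 t ht, ?_⟩
  unfold th2
  rw [hev1.deriv_eq]; simp

lemma th_pos : 0 < th 0 := expNegInvGlue.pos_of_pos (by norm_num)

lemma exists_bound : ∃ B : ℝ, 0 ≤ B ∧ ∀ t ∈ Icc (0 : ℝ) 1, |th t| ≤ B ∧ |th1 t| ≤ B ∧ |th2 t| ≤ B := by
  obtain ⟨B0, h0⟩ := isCompact_Icc.exists_bound_of_continuousOn
    (f := th) (s := Icc (0 : ℝ) 1) th_smooth.continuous.continuousOn
  obtain ⟨B1, h1⟩ := isCompact_Icc.exists_bound_of_continuousOn
    (f := th1) (s := Icc (0 : ℝ) 1) th1_smooth.continuous.continuousOn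
  obtain ⟨B2, h2⟩ := isCompact_Icc.exists_bound_of_continuousOn
    (f := th2) (s := Icc (0 : ℝ) 1) th2_cont.continuousOn
  refine ⟨max (max B0 B1) B2, ?_, fun t ht => ⟨?_, ?_, ?_⟩⟩
  · exact le_trans (norm_nonneg _) (le_trans (h0 0 (by simp)) (le_trans (le_max_left B0 B1)
      (le_max_left _ _)))
  · exact le_trans (h0 t ht) (le_trans (le_max_left B0 B1) (le_max_left _ _))
  · exact le_trans (h1 t ht) (le_trans (le_max_right B0 B1) (le_max_left _ _))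
  · exact le_trans (h2 t ht) (le_max_right _ _)

/-- The Levi form in a vector space. -/
noncomputable def leviV (f : E 2 → ℝ) (x v : E 2) : ℝ :=
  (iteratedDeriv 2 (fun s : ℝ => f (x + (s : ℂ) • v)) 0 +
    iteratedDeriv 2 (fun s : ℝ => f (x + (s : ℂ) • (Complex.I • v))) 0) / 4

lemma line (c : ℝ) (x v : E 2) :
    iteratedDeriv 2 (fun s : ℝ => G c (x + (s : ℂ) • v)) 0 =
      c * (2 * Complex.normSq (v 1)) +
      ((2 * th1 (Complex.normSq (x 1)) ^ 2 + 2 * th (Complex.normSq (x 1)) *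
          th2 (Complex.normSq (x 1))) *
          (2 * ((x 1).re * (v 1).re + (x 1).im * (v 1).im)) *
          (2 * ((x 1).re * (v 1).re + (x 1).im * (v 1).im)) +
        (2 * th (Complex.normSq (x 1)) * th1 (Complex.normSq (x 1))) *
          (2 * Complex.normSq (v 1))) * per (x 0) +
      2 * ((2 * th (Complex.normSq (x 1)) * th1 (Complex.normSq (x 1))) *
          (2 * ((x 1).re * (v 1).re + (x 1).im * (v 1).im)) *
          (2 * Real.pi * (v 0).re * Real.sin (2 * Real.pi * (x 0).re) +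
           2 * Real.pi * (v 0).im * Real.sin (2 * Real.pi * (x 0).im))) +
      th (Complex.normSq (x 1)) ^ 2 *
        ((2 * Real.pi * (v 0).re) ^ 2 * Real.cos (2 * Real.pi * (x 0).re) +
         (2 * Real.pi * (v 0).im) ^ 2 * Real.cos (2 * Real.pi * (x 0).im)) := by
  set x1 : ℝ := (x 1).re
  set x2 : ℝ := (x 1).im
  set v1 : ℝ := (v 1).re
  set v2 : ℝ := (v 1).im
  set y1 : ℝ := (x 0).re
  set y2 : ℝ := (x 0).im
  set u1 : ℝ := (v 0).re
  set u2 : ℝ := (v 0).im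
  have hG : (fun s : ℝ => G c (x + (s : ℂ) • v)) = fun s =>
      c * ((x1 + s * v1) * (x1 + s * v1) + (x2 + s * v2) * (x2 + s * v2)) +
      (fun t => th t ^ 2) ((x1 + s * v1) * (x1 + s * v1) + (x2 + s * v2) * (x2 + s * v2)) *
        (2 - Real.cos (2 * Real.pi * (y1 + s * u1)) - Real.cos (2 * Real.pi * (y2 + s * u2))) := by
    funext s
    simp [G, per, Complex.normSq_apply, x1, x2, v1, v2, y1, y2, u1, u2]
  rw [hG]
  have hη : ∀ t, HasDerivAt (fun t => th t ^ 2) (2 * th t * th1 t) t := by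
    intro t
    have := (th_deriv t).fun_pow 2
    exact this.congr_deriv (by norm_num)
  have hη1 : ∀ t, HasDerivAt (fun t => 2 * th t * th1 t) (2 * th1 t ^ 2 + 2 * th t * th2 t) t := by
    intro t
    have := ((th_deriv t).const_mul 2).mul (th1_deriv t)
    exact this.congr_deriv (by ring)
  have hl : ∀ (a b t : ℝ), HasDerivAt (fun s : ℝ => a + s * b) b t := by
    intro a b t
    simpa using ((hasDerivAt_id t).mul_const b).const_add a
  have hp : ∀ t : ℝ, HasDerivAt (fun s : ℝ => (x1 + s * v1) * (x1 + s * v1) +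
      (x2 + s * v2) * (x2 + s * v2)) (2 * ((x1 + t * v1) * v1 + (x2 + t * v2) * v2)) t := by
    intro t
    have := ((hl x1 v1 t).mul (hl x1 v1 t)).add ((hl x2 v2 t).mul (hl x2 v2 t))
    exact this.congr_deriv (by ring)
  have hp1 : ∀ t : ℝ, HasDerivAt (fun t : ℝ => 2 * ((x1 + t * v1) * v1 + (x2 + t * v2) * v2))
      (2 * (v1 * v1 + v2 * v2)) t := by
    intro t
    exact (((hl x1 v1 t).mul_const v1).add ((hl x2 v2 t).mul_const v2)).const_mul 2
  have hq : ∀ t : ℝ, HasDerivAt (fun s : ℝ => 2 - Real.cos (2 * Real.pi * (y1 + s * u1)) -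
      Real.cos (2 * Real.pi * (y2 + s * u2)))
      (2 * Real.pi * u1 * Real.sin (2 * Real.pi * (y1 + t * u1)) +
        2 * Real.pi * u2 * Real.sin (2 * Real.pi * (y2 + t * u2))) t := by
    intro t
    have := (((hl y1 u1 t).const_mul (2 * Real.pi)).cos.const_sub 2).sub
      ((hl y2 u2 t).const_mul (2 * Real.pi)).cos
    exact this.congr_deriv (by ring)
  have hq1 : ∀ t : ℝ, HasDerivAt (fun t : ℝ => 2 * Real.pi * u1 * Real.sin (2 * Real.pi * (y1 + t * u1)) +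
        2 * Real.pi * u2 * Real.sin (2 * Real.pi * (y2 + t * u2)))
      ((2 * Real.pi * u1) ^ 2 * Real.cos (2 * Real.pi * (y1 + t * u1)) +
        (2 * Real.pi * u2) ^ 2 * Real.cos (2 * Real.pi * (y2 + t * u2))) t := by
    intro t
    have := (((hl y1 u1 t).const_mul (2 * Real.pi)).sin.const_mul (2 * Real.pi * u1)).add
      (((hl y2 u2 t).const_mul (2 * Real.pi)).sin.const_mul (2 * Real.pi * u2))
    exact this.congr_deriv (by ring)
  rw [second c _ _ _ _ _ _ _ _ _ hη hη1 hp hp1 hq hq1]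
  simp only [zero_mul, add_zero, Complex.normSq_apply, per]
  rfl

lemma alg (B t0 t1 t2 w1 w2 a1 a2 b1 b2 S1 S2 K1 K2 q P : ℝ) (hB : 0 ≤ B)
    (h0 : |t0| ≤ B) (h1 : |t1| ≤ B) (h2 : |t2| ≤ B) (hW : w1 ^ 2 + w2 ^ 2 ≤ 1 / 2)
    (hq0 : 0 ≤ q) (hq1 : q ≤ 1) (hK : 1 ≤ K1 + K2) (hS1 : S1 ^ 2 ≤ 1) (hS2 : S2 ^ 2 ≤ 1) :
    4 * (b1 ^ 2 + b2 ^ 2) + 2 * P ^ 2 * t0 ^ 2 * (a1 ^ 2 + a2 ^ 2) ≤
      (12 * B ^ 2 + 1) * (4 * (b1 ^ 2 + b2 ^ 2)) +
      ((2 * t1 ^ 2 + 2 * t0 * t2) * (4 * ((w1 ^ 2 + w2 ^ 2) * (b1 ^ 2 + b2 ^ 2))) +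
        (2 * t0 * t1) * (4 * (b1 ^ 2 + b2 ^ 2))) * q +
      16 * P * (t0 * t1) * ((w1 * b1 + w2 * b2) * (a1 * S1 + a2 * S2) +
        (-w1 * b2 + w2 * b1) * (-a2 * S1 + a1 * S2)) +
      t0 ^ 2 * (4 * P ^ 2 * ((a1 ^ 2 + a2 ^ 2) * (K1 + K2))) := by
  have hbb : 0 ≤ b1 ^ 2 + b2 ^ 2 := by positivity
  have haa : 0 ≤ a1 ^ 2 + a2 ^ 2 := by positivity
  have hW0 : 0 ≤ w1 ^ 2 + w2 ^ 2 := by positivity
  set bb := b1 ^ 2 + b2 ^ 2 with hbbd
  set aa := a1 ^ 2 + a2 ^ 2 with haad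
  set W := w1 ^ 2 + w2 ^ 2 with hWd
  have h02 : -B ^ 2 ≤ t0 * t2 := by
    have : |t0 * t2| ≤ B ^ 2 := by
      rw [abs_mul, sq]; exact mul_le_mul h0 h2 (abs_nonneg _) hB
    exact (abs_le.mp this).1
  have h01 : -B ^ 2 ≤ t0 * t1 := by
    have : |t0 * t1| ≤ B ^ 2 := by
      rw [abs_mul, sq]; exact mul_le_mul h0 h1 (abs_nonneg _) hB
    exact (abs_le.mp this).1
  have h11 : t1 ^ 2 ≤ B ^ 2 := by
    rw [← sq_abs t1]
    exact pow_le_pow_left₀ (abs_nonneg _) h1 2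
  have hA : -12 * B ^ 2 * bb ≤ ((2 * t1 ^ 2 + 2 * t0 * t2) * (4 * (W * bb)) +
        (2 * t0 * t1) * (4 * bb)) * q := by
    have e1 : -2 * B ^ 2 ≤ 2 * t1 ^ 2 + 2 * t0 * t2 := by nlinarith [sq_nonneg t1]
    have e2 : -4 * B ^ 2 ≤ (2 * t1 ^ 2 + 2 * t0 * t2) * (4 * W * q) := by
      have f1 : 0 ≤ 4 * W * q := by positivity
      have f2 : 4 * W * q ≤ 2 := by
        have : W * q ≤ 1 / 2 * 1 := mul_le_mul hW hq1 hq0 (by norm_num)
        linarith
      have f3 : (-2 * B ^ 2) * (4 * W * q) ≤ (2 * t1 ^ 2 + 2 * t0 * t2) * (4 * W * q) :=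
        mul_le_mul_of_nonneg_right e1 f1
      nlinarith [sq_nonneg B]
    have e3 : -8 * B ^ 2 ≤ 8 * (t0 * t1) * q := by
      have f3 : (-8 * B ^ 2) * q ≤ (8 * (t0 * t1)) * q :=
        mul_le_mul_of_nonneg_right (by linarith) hq0
      nlinarith [sq_nonneg B]
    have e4 : (-12 * B ^ 2) * bb ≤ ((2 * t1 ^ 2 + 2 * t0 * t2) * (4 * W * q) +
        8 * (t0 * t1) * q) * bb := mul_le_mul_of_nonneg_right (by linarith) hbb
    calc -12 * B ^ 2 * bb ≤ _ := e4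
      _ = _ := by ring
  have hBB : -(2 * P ^ 2 * t0 ^ 2 * aa) - 32 * B ^ 2 * bb ≤
      16 * P * (t0 * t1) * ((w1 * b1 + w2 * b2) * (a1 * S1 + a2 * S2) +
        (-w1 * b2 + w2 * b1) * (-a2 * S1 + a1 * S2)) := by
    have e1 := sq_nonneg (P * t0 * (a1 * S1 + a2 * S2) + 8 * t1 * (w1 * b1 + w2 * b2))
    have e2 := sq_nonneg (P * t0 * (-a2 * S1 + a1 * S2) + 8 * t1 * (-w1 * b2 + w2 * b1))
    have e3 : (P * t0 * (a1 * S1 + a2 * S2)) ^ 2 + (P * t0 * (-a2 * S1 + a1 * S2)) ^ 2 =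
        P ^ 2 * t0 ^ 2 * aa * (S1 ^ 2 + S2 ^ 2) := by rw [haad]; ring
    have e4 : (8 * t1 * (w1 * b1 + w2 * b2)) ^ 2 + (8 * t1 * (-w1 * b2 + w2 * b1)) ^ 2 =
        64 * t1 ^ 2 * (W * bb) := by rw [hWd, hbbd]; ring
    have e5 : P ^ 2 * t0 ^ 2 * aa * (S1 ^ 2 + S2 ^ 2) ≤ P ^ 2 * t0 ^ 2 * aa * 2 :=
      mul_le_mul_of_nonneg_left (by linarith) (by positivity)
    have e6 : 64 * t1 ^ 2 * (W * bb) ≤ 64 * B ^ 2 * (1 / 2 * bb) := by
      apply mul_le_mul (by linarith) (mul_le_mul_of_nonneg_right hW hbb) (by positivity)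
        (by positivity)
    nlinarith
  have hC : 4 * P ^ 2 * t0 ^ 2 * aa ≤ t0 ^ 2 * (4 * P ^ 2 * (aa * (K1 + K2))) := by
    have : 4 * P ^ 2 * t0 ^ 2 * aa * 1 ≤ 4 * P ^ 2 * t0 ^ 2 * aa * (K1 + K2) :=
      mul_le_mul_of_nonneg_left hK (by positivity)
    calc _ = 4 * P ^ 2 * t0 ^ 2 * aa * 1 := by ring
      _ ≤ _ := this
      _ = _ := by ring
  nlinarith [mul_nonneg (sq_nonneg B) hbb]

/-- the region where the function is plurisubharmonic -/
def good : Set (E 2) :=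
  {x | 1 / 2 < Complex.normSq (x 1) ∨
    1 < Real.cos (2 * Real.pi * (x 0).re) + Real.cos (2 * Real.pi * (x 0).im)}

lemma levi_lower (B : ℝ) (hB : 0 ≤ B)
    (hb : ∀ t ∈ Icc (0 : ℝ) 1, |th t| ≤ B ∧ |th1 t| ≤ B ∧ |th2 t| ≤ B) (x v : E 2)
    (hx : x ∈ good) :
    Complex.normSq (v 1) + Real.pi ^ 2 / 2 * th (Complex.normSq (x 1)) ^ 2 *
      Complex.normSq (v 0) ≤ leviV (G (12 * B ^ 2 + 1)) x v := by
  unfold leviV
  rw [line, line]
  have e1 : (Complex.I • v) 1 = Complex.I * v 1 := rfl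
  have e0 : (Complex.I • v) 0 = Complex.I * v 0 := rfl
  rw [e1, e0]
  have n1 : Complex.normSq (Complex.I * v 1) = Complex.normSq (v 1) := by
    rw [map_mul, Complex.normSq_I, one_mul]
  rw [n1]
  simp only [Complex.mul_re, Complex.mul_im, Complex.I_re, Complex.I_im, zero_mul, one_mul,
    zero_sub, zero_add]
  set t := Complex.normSq (x 1) with ht
  have ht' : t = (x 1).re ^ 2 + (x 1).im ^ 2 := by rw [ht, Complex.normSq_apply]; ring
  have hv1 : Complex.normSq (v 1) = (v 1).re ^ 2 + (v 1).im ^ 2 := by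
    rw [Complex.normSq_apply]; ring
  have hv0 : Complex.normSq (v 0) = (v 0).re ^ 2 + (v 0).im ^ 2 := by
    rw [Complex.normSq_apply]; ring
  by_cases hcase : 1 / 2 < t
  · obtain ⟨h0, h1, h2⟩ := th_zero_of hcase
    rw [h0, h1, h2, hv1]
    have : 0 ≤ B ^ 2 * ((v 1).re ^ 2 + (v 1).im ^ 2) := by positivity
    nlinarith
  · have hx2 : 1 < Real.cos (2 * Real.pi * (x 0).re) + Real.cos (2 * Real.pi * (x 0).im) := by
      rcases hx with h | h
      · exact absurd h hcase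
      · exact h
    push Not at hcase
    have ht0 : 0 ≤ t := Complex.normSq_nonneg _
    obtain ⟨b0, b1, b2⟩ := hb t ⟨ht0, by linarith⟩
    have hc1 := Real.cos_le_one (2 * Real.pi * (x 0).re)
    have hc2 := Real.cos_le_one (2 * Real.pi * (x 0).im)
    have := alg B (th t) (th1 t) (th2 t) (x 1).re (x 1).im (v 0).re (v 0).im (v 1).re (v 1).im
      (Real.sin (2 * Real.pi * (x 0).re)) (Real.sin (2 * Real.pi * (x 0).im))
      (Real.cos (2 * Real.pi * (x 0).re)) (Real.cos (2 * Real.pi * (x 0).im))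
      (per (x 0)) Real.pi hB b0 b1 b2 (by rw [← ht']; exact hcase)
      (by unfold per; linarith) (by unfold per; linarith) hx2.le
      (by nlinarith [Real.sin_sq_add_cos_sq (2 * Real.pi * (x 0).re),
        sq_nonneg (Real.cos (2 * Real.pi * (x 0).re))])
      (by nlinarith [Real.sin_sq_add_cos_sq (2 * Real.pi * (x 0).im),
        sq_nonneg (Real.cos (2 * Real.pi * (x 0).im))])
    rw [hv1, hv0, le_div_iff₀ (by norm_num : (0:ℝ) < 4)]
    refine le_trans (le_of_eq ?_) (this.trans (le_of_eq ?_))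
    · ring
    · ring

end Pool.Agent.R229.Nucl
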