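import Mathlib
import Pool.Agent.R229.NuclLevi
import Pool.Agent.H194R3.Cartan.Torus

/-! # Core and nucleus differ -/

set_option autoImplicit false

open scoped Manifold ContDiff Topology
open Set Metric
open Pool.Agent.H194R3.Cartan

namespace Pool.Agent.R229.Nucl

/-- Gaussian integers as a predicate -/
def isGauss (z : ℂ) : Prop := ∃ m n : ℤ, z = (m : ℂ) + (n : ℂ) * Complex.I

/-- The lattice `ℤ[i] × {0}` -/
def Lat : AddSubgroup (E 2) where
  carrier := {v | isGauss (v 0) ∧ v 1 = 0}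
  zero_mem' := ⟨⟨0, 0, by simp⟩, by simp⟩
  add_mem' := by
    rintro a b ⟨⟨m, n, h⟩, h1⟩ ⟨⟨m', n', h'⟩, h1'⟩
    refine ⟨⟨m + m', n + n', ?_⟩, ?_⟩
    · rw [PiLp.add_apply, h, h']; push_cast; ring
    · rw [PiLp.add_apply, h1, h1', add_zero]
  neg_mem' := by
    rintro a ⟨⟨m, n, h⟩, h1⟩
    refine ⟨⟨-m, -n, ?_⟩, ?_⟩
    · rw [PiLp.neg_apply, h]; push_cast; ring
    · rw [PiLp.neg_apply, h1, neg_zero]

lemma mem_Lat {v : E 2} : v ∈ Lat ↔ isGauss (v 0) ∧ v 1 = 0 := Iff.rfl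

lemma isGauss_norm {z : ℂ} (hz : isGauss z) (h0 : z ≠ 0) : 1 ≤ ‖z‖ := by
  obtain ⟨m, n, rfl⟩ := hz
  have h1 : Complex.normSq ((m : ℂ) + (n : ℂ) * Complex.I) = ((m ^ 2 + n ^ 2 : ℤ) : ℝ) := by
    rw [Complex.normSq_apply]; simp; ring
  have h2 : (1 : ℝ) ≤ ((m ^ 2 + n ^ 2 : ℤ) : ℝ) := by
    have h3 : (0 : ℤ) < m ^ 2 + n ^ 2 := by
      by_contra hcon
      push Not at hcon
      have hm : m = 0 := by nlinarith [sq_nonneg m, sq_nonneg n]
      have hn : n = 0 := by nlinarith [sq_nonneg m, sq_nonneg n]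
      apply h0
      simp [hm, hn]
    exact_mod_cast h3
  rw [← h1, Complex.normSq_eq_norm_sq] at h2
  nlinarith [norm_nonneg ((m : ℂ) + (n : ℂ) * Complex.I)]

instance : DiscreteTopology Lat := by
  apply DiscreteTopology.of_forall_le_dist (r := 1) one_pos
  intro a b hab
  have h1 : ((a : E 2) - (b : E 2)) ∈ Lat := Lat.sub_mem a.2 b.2
  obtain ⟨hg, hz⟩ := mem_Lat.mp h1
  rw [Subtype.dist_eq, dist_eq_norm]
  have h2 : ((a : E 2) - (b : E 2)) 0 ≠ 0 := by
    intro h0
    apply hab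
    apply Subtype.ext
    rw [← sub_eq_zero]
    rw [eq_mk2 ((a : E 2) - (b : E 2)), h0, hz]
    ext i; fin_cases i <;> rfl
  exact (isGauss_norm hg h2).trans (PiLp.norm_apply_le _ 0)

/-- The manifold `(ℂ/ℤ[i]) × ℂ`. -/
abbrev MM : Type := Torus Lat

lemma isGauss_sub {z w : ℂ} (h : isGauss (w - z)) (hz : isGauss z) : isGauss w := by
  obtain ⟨m, n, h⟩ := h
  obtain ⟨m', n', h'⟩ := hz
  refine ⟨m + m', n + n', ?_⟩
  have : w = (w - z) + z := by ring
  rw [this, h, h']; push_cast; ring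

lemma proj_eq {u v : E 2} (h : Torus.proj Lat u = Torus.proj Lat v) :
    isGauss (v 0 - u 0) ∧ v 1 = u 1 := by
  rw [Torus.proj_eq_iff] at h
  obtain ⟨h1, h2⟩ := mem_Lat.mp h
  rw [PiLp.sub_apply] at h1 h2
  exact ⟨h1, sub_eq_zero.mp h2⟩

/-- The set upstairs. -/
def KT : Set (E 2) := {v | ‖v 1‖ = 1 ∨ (‖v 1‖ ≤ 1 ∧ isGauss (v 0))}

/-- The compact set. -/
def KK : Set MM := Torus.proj Lat '' KT

lemma mem_KK {v : E 2} : Torus.proj Lat v ∈ KK ↔ v ∈ KT := by
  constructor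
  · rintro ⟨u, hu, huv⟩
    obtain ⟨h1, h2⟩ := proj_eq huv
    rcases hu with h | ⟨h, h'⟩
    · left; rw [h2]; exact h
    · right; rw [h2]; exact ⟨h, isGauss_sub h1 h'⟩
  · intro h
    exact ⟨v, h, rfl⟩

lemma isCompact_KK : IsCompact KK := by
  set S1 : Set (E 2) := {v | v 0 ∈ (Icc (0:ℝ) 1 ×ℂ Icc (0:ℝ) 1) ∧ v 1 ∈ sphere (0 : ℂ) 1} with hS1
  set S2 : Set (E 2) := {v | v 0 = 0 ∧ v 1 ∈ closedBall (0 : ℂ) 1} with hS2
  have hc1 : IsCompact S1 := by
    have : S1 = (fun p : ℂ × ℂ => mk2 p.1 p.2) ''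
        ((Icc (0:ℝ) 1 ×ℂ Icc (0:ℝ) 1) ×ˢ sphere (0 : ℂ) 1) := by
      ext v
      constructor
      · rintro ⟨h1, h2⟩
        exact ⟨(v 0, v 1), ⟨h1, h2⟩, (eq_mk2 v).symm⟩
      · rintro ⟨⟨a, b⟩, ⟨h1, h2⟩, rfl⟩
        exact ⟨h1, h2⟩
    rw [this]
    exact ((isCompact_Icc.reProdIm isCompact_Icc).prod (isCompact_sphere _ _)).image continuous_mk2
  have hc2 : IsCompact S2 := by
    have : S2 = (fun p : ℂ × ℂ => mk2 p.1 p.2) '' (({0} : Set ℂ) ×ˢ closedBall (0 : ℂ) 1) := by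
      ext v
      constructor
      · rintro ⟨h1, h2⟩
        exact ⟨(v 0, v 1), ⟨h1, h2⟩, (eq_mk2 v).symm⟩
      · rintro ⟨⟨a, b⟩, ⟨h1, h2⟩, rfl⟩
        exact ⟨h1, h2⟩
    rw [this]
    exact (isCompact_singleton.prod (isCompact_closedBall _ _)).image continuous_mk2
  have : KK = Torus.proj Lat '' (S1 ∪ S2) := by
    apply Subset.antisymm
    · rintro _ ⟨v, hv, rfl⟩
      rcases hv with h | ⟨h, m, n, h'⟩
      · -- move into the unit square
        set u : E 2 := mk2 (v 0 - ((⌊(v 0).re⌋ : ℂ) + (⌊(v 0).im⌋ : ℂ) * Complex.I)) (v 1) with hu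
        refine ⟨u, Or.inl ⟨?_, ?_⟩, ?_⟩
        · rw [Complex.mem_reProdIm]
          simp only [hu, mk2_zero, Complex.sub_re, Complex.add_re, Complex.intCast_re,
            Complex.mul_re, Complex.I_re, mul_zero, Complex.intCast_im, Complex.I_im, mul_one,
            sub_self, add_zero, Complex.sub_im, Complex.add_im, Complex.mul_im, zero_add]
          exact ⟨⟨by linarith [Int.floor_le (v 0).re], by linarith [Int.lt_floor_add_one (v 0).re]⟩,
            ⟨by linarith [Int.floor_le (v 0).im], by linarith [Int.lt_floor_add_one (v 0).im]⟩⟩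
        · simp [hu, h]
        · rw [Torus.proj_eq_iff]
          refine mem_Lat.mpr ⟨⟨⌊(v 0).re⌋, ⌊(v 0).im⌋, ?_⟩, ?_⟩
          · rw [PiLp.sub_apply, hu, mk2_zero]; ring
          · rw [PiLp.sub_apply, hu, mk2_one]; ring
      · refine ⟨mk2 0 (v 1), Or.inr ⟨rfl, by simpa using h⟩, ?_⟩
        rw [Torus.proj_eq_iff]
        refine mem_Lat.mpr ⟨⟨m, n, ?_⟩, ?_⟩
        · rw [PiLp.sub_apply, mk2_zero, h', sub_zero]
        · rw [PiLp.sub_apply, mk2_one, sub_self]
    · rintro _ ⟨v, hv, rfl⟩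
      rcases hv with ⟨h1, h2⟩ | ⟨h1, h2⟩
      · exact ⟨v, Or.inl (by simpa using h2), rfl⟩
      · exact ⟨v, Or.inr ⟨by simpa using h2, 0, 0, by simp [h1]⟩, rfl⟩
  rw [this]
  exact (hc1.union hc2).image (Torus.continuous_proj Lat)

/-! ## Cuts do nothing -/

lemma interior_hat {r : ℝ} {z : E 2} (hz : z ∈ interior (hat 2 r)) : r < (z 0).re := by
  have h1 : hat 2 r ∈ 𝓝 z := mem_interior_iff_mem_nhds.mp hz
  have hc : Continuous (fun s : ℝ => z - (s : ℂ) • mk2 1 0) := by fun_prop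
  have h2 : ∀ᶠ s : ℝ in 𝓝 (0 : ℝ), z - (s : ℂ) • mk2 1 0 ∈ hat 2 r := by
    have h3 : hat 2 r ∈ 𝓝 ((fun s : ℝ => z - (s : ℂ) • mk2 1 0) 0) := by simpa using h1
    exact (hc.continuousAt (x := (0 : ℝ))).preimage_mem_nhds h3
  obtain ⟨δ, hδ, h3⟩ := Metric.eventually_nhds_iff.mp h2
  have h4 := (h3 (y := δ / 2) (by
    rw [Real.dist_eq, sub_zero, abs_of_pos (by positivity)]; linarith)).2
  simp at h4
  linarith

lemma cut_trivial {r : ℝ} {U : Set (E 2)} {Φ : E 2 → MM} (hU : IsOpen U)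
    (hsub : hat 2 r ⊆ U) (hΦ : MDifferentiableOn 𝓘(ℂ, E 2) 𝓘(ℂ, E 2) Φ U)
    (hdis : Disjoint (Φ '' cap 2 r) KK) : KK \ Φ '' interior (hat 2 r) = KK := by
  have hhat : IsCompact (hat 2 r) := by
    have h1 : hat 2 r = closedBall (0 : E 2) 1 ∩ {z | r ≤ (z 0).re} := by
      ext z; simp [hat]
    rw [h1]
    apply (isCompact_closedBall _ _).inter_right
    exact isClosed_le continuous_const (by fun_prop)
  have hKc : IsClosed KK := isCompact_KK.isClosed
  have hcontU : ContinuousOn Φ U := hΦ.continuousOn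
  set C : Set (E 2) := hat 2 r ∩ Φ ⁻¹' KK with hC
  have hCc : IsCompact C := by
    apply hhat.of_isClosed_subset _ inter_subset_left
    exact (hcontU.mono hsub).preimage_isClosed_of_isClosed hhat.isClosed hKc
  have hmain := sweep r C hCc inter_subset_left (by
    intro z hz hn
    exact disjoint_left.mp hdis ⟨z, ⟨hn, hz.1.2⟩, rfl⟩ hz.2) (by
    intro z₀ hz₀ hre hnorm
    have hz₀U : z₀ ∈ U := hsub hz₀.1
    set p : MM := Φ z₀ with hp
    set ch := extChartAt 𝓘(ℂ, E 2) p with hch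
    have hmd : ∀ᶠ z in 𝓝 z₀, z ∈ U ∧ Φ z ∈ (chartAt (E 2) p).source := by
      have h1 : ∀ᶠ z in 𝓝 z₀, z ∈ U := hU.mem_nhds hz₀U
      have h2 : ∀ᶠ z in 𝓝 z₀, Φ z ∈ (chartAt (E 2) p).source :=
        (hcontU.continuousAt (hU.mem_nhds hz₀U)).preimage_mem_nhds
          ((chartAt (E 2) p).open_source.mem_nhds (mem_chart_source _ p))
      exact h1.and h2
    have hdiff : ∀ᶠ z in 𝓝 z₀, DifferentiableAt ℂ (fun z => ch (Φ z)) z := by
      filter_upwards [hmd] with z hz
      rw [← mdifferentiableAt_iff_differentiableAt]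
      have h1 : MDifferentiableAt 𝓘(ℂ, E 2) 𝓘(ℂ, E 2) Φ z :=
        (hΦ z hz.1).mdifferentiableAt (hU.mem_nhds hz.1)
      have h2 : MDifferentiableAt 𝓘(ℂ, E 2) 𝓘(ℂ, E 2) ch (Φ z) :=
        mdifferentiableAt_extChartAt hz.2
      exact h2.comp z h1
    have hproj : ∀ᶠ z in 𝓝 z₀, Φ z = Torus.proj Lat (ch (Φ z)) := by
      filter_upwards [hmd] with z hz
      rw [← Torus.extChartAt_symm Lat p]
      exact ((extChartAt 𝓘(ℂ, E 2) p).left_inv (by rw [extChartAt_source]; exact hz.2)).symm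
    have hcontc : ContinuousAt (fun z => ch (Φ z)) z₀ :=
      (hdiff.self_of_nhds).continuousAt
    have hp0 : ch p ∈ KT := by
      rw [← mem_KK, hch, ← Torus.extChartAt_symm Lat p,
        (extChartAt 𝓘(ℂ, E 2) p).left_inv (mem_extChartAt_source p)]
      exact hz₀.2
    have hnear : ∀ᶠ z in 𝓝 z₀, z ∈ hat 2 r := by
      have h1 : ∀ᶠ z : E 2 in 𝓝 z₀, ‖z‖ < 1 := continuous_norm.continuousAt.eventually_lt
        continuousAt_const hnorm
      have h2 : ∀ᶠ z : E 2 in 𝓝 z₀, r < (z 0).re :=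
        continuousAt_const.eventually_lt (by fun_prop) hre
      filter_upwards [h1, h2] with z h3 h4
      exact ⟨h3.le, h4.le⟩
    by_cases hcase : ‖(ch p) 1‖ = 1
    · refine ⟨fun z => (ch (Φ z)) 1 - (ch p) 1, ?_, ?_, ?_⟩
      · filter_upwards [hdiff] with z hz
        exact (((EuclideanSpace.proj (1 : Fin 2) : E 2 →L[ℂ] ℂ).differentiableAt.comp z
          hz).sub_const _)
      · simp [hp]
      · filter_upwards [hproj, hnear] with z h1 h2 h3
        refine ⟨h2, ?_⟩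
        change Φ z ∈ KK
        rw [h1, mem_KK]
        left
        rw [sub_eq_zero.mp h3]; exact hcase
    · have hp1 : ‖(ch p) 1‖ ≤ 1 ∧ isGauss ((ch p) 0) := by
        rcases hp0 with h | h
        · exact absurd h hcase
        · exact h
      have hlt : ‖(ch p) 1‖ < 1 := lt_of_le_of_ne hp1.1 hcase
      have hlt' : ∀ᶠ z in 𝓝 z₀, ‖(ch (Φ z)) 1‖ < 1 := by
        have hc : ContinuousAt (fun z => ‖(ch (Φ z)) 1‖) z₀ :=
          ((EuclideanSpace.proj (1 : Fin 2) : E 2 →L[ℂ] ℂ).continuous.continuousAt.comp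
            hcontc).norm
        exact hc.eventually_lt continuousAt_const hlt
      refine ⟨fun z => (ch (Φ z)) 0 - (ch p) 0, ?_, ?_, ?_⟩
      · filter_upwards [hdiff] with z hz
        exact (((EuclideanSpace.proj (0 : Fin 2) : E 2 →L[ℂ] ℂ).differentiableAt.comp z
          hz).sub_const _)
      · simp [hp]
      · filter_upwards [hproj, hnear, hlt'] with z h1 h2 h4 h3
        refine ⟨h2, ?_⟩
        change Φ z ∈ KK
        rw [h1, mem_KK]
        right
        exact ⟨h4.le, by rw [sub_eq_zero.mp h3]; exact hp1.2⟩)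
  rw [sdiff_eq_left, Set.disjoint_left]
  rintro x hx ⟨z, hz, rfl⟩
  have h1 := interior_hat hz
  have h2 := hmain z ⟨interior_subset hz, hx⟩
  linarith

lemma nucleus_KK : nucleus 2 KK = KK := by
  have key : ∀ K' : Set MM, Relation.ReflTransGen (SphericalCut 2) KK K' → K' = KK := by
    intro K' h
    induction h with
    | refl => rfl
    | tail _ hcut ih =>
      subst ih
      obtain ⟨-, -, r, -, -, U, Φ, hU, hsub, hΦ, -, hdis, rfl⟩ := hcut
      exact cut_trivial hU hsub hΦ hdis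
  ext x
  constructor
  · intro h
    exact h KK Relation.ReflTransGen.refl
  · intro h K' hK'
    rw [key K' hK']; exact h

/-! ## The function -/

/-- The function downstairs. -/
noncomputable def ff (c : ℝ) : MM → ℝ := fun q => G c (Torus.sec Lat q)

lemma cos_int (x : ℝ) (m : ℤ) : Real.cos (2 * Real.pi * (x + m)) = Real.cos (2 * Real.pi * x) := by
  have : 2 * Real.pi * (x + m) = 2 * Real.pi * x + m * (2 * Real.pi) := by ring
  rw [this, Real.cos_add_int_mul_two_pi]

lemma re_im_of {u v : ℂ} (h : isGauss (v - u)) : ∃ m n : ℤ, v.re = u.re + m ∧ v.im = u.im + n := by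
  obtain ⟨m, n, h⟩ := h
  have hv : v = u + ((m : ℂ) + (n : ℂ) * Complex.I) := by rw [← h]; ring
  refine ⟨m, n, ?_, ?_⟩
  · rw [hv]; simp
  · rw [hv]; simp

lemma G_periodic (c : ℝ) {u v : E 2} (h : Torus.proj Lat u = Torus.proj Lat v) : G c u = G c v := by
  obtain ⟨h1, h2⟩ := proj_eq h
  obtain ⟨m, n, h3, h4⟩ := re_im_of h1
  unfold G per
  rw [h2, h3, h4, cos_int, cos_int]

lemma ff_proj (c : ℝ) (v : E 2) : ff c (Torus.proj Lat v) = G c v :=
  G_periodic c (Torus.proj_sec Lat _)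

lemma good_periodic {u v : E 2} (h : Torus.proj Lat u = Torus.proj Lat v) (hu : u ∈ good) :
    v ∈ good := by
  obtain ⟨h1, h2⟩ := proj_eq h
  obtain ⟨m, n, h3, h4⟩ := re_im_of h1
  unfold good at *
  rw [mem_ofPred_eq] at *
  rw [h2, h3, h4, cos_int, cos_int]
  exact hu

lemma isOpen_good : IsOpen good := by
  have h1 : IsOpen {x : E 2 | 1 / 2 < Complex.normSq (x 1)} := by
    apply isOpen_lt continuous_const
    exact Complex.continuous_normSq.comp (by fun_prop)
  have h2 : IsOpen {x : E 2 | 1 < Real.cos (2 * Real.pi * (x 0).re) +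
      Real.cos (2 * Real.pi * (x 0).im)} := by
    apply isOpen_lt continuous_const
    fun_prop
  exact h1.union h2

lemma leviForm_ff (c : ℝ) (q : MM) (v : E 2) :
    leviForm (ff c) q v = leviV (G c) (extChartAt 𝓘(ℂ, E 2) q q) v := by
  unfold leviForm leviV
  simp only [Torus.extChartAt_symm, ff_proj]

/-- real part of a coordinate -/
noncomputable def reL (i : Fin 2) : E 2 →L[ℝ] ℝ :=
  Complex.reCLM ∘L ((EuclideanSpace.proj i : E 2 →L[ℂ] ℂ).restrictScalars ℝ)

/-- imaginary part of a coordinate -/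
noncomputable def imL (i : Fin 2) : E 2 →L[ℝ] ℝ :=
  Complex.imCLM ∘L ((EuclideanSpace.proj i : E 2 →L[ℂ] ℂ).restrictScalars ℝ)

lemma G_smooth (c : ℝ) : ContDiff ℝ ∞ (G c) := by
  have h : G c = fun v => c * (reL 1 v * reL 1 v + imL 1 v * imL 1 v) +
      (th (reL 1 v * reL 1 v + imL 1 v * imL 1 v)) ^ 2 *
        (2 - Real.cos (2 * Real.pi * reL 0 v) - Real.cos (2 * Real.pi * imL 0 v)) := by
    funext v
    simp [G, per, Complex.normSq_apply, reL, imL]
  rw [h]
  have hr : ∀ i, ContDiff ℝ ∞ (fun v => reL i v) := fun i => (reL i).contDiff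
  have hi : ∀ i, ContDiff ℝ ∞ (fun v => imL i v) := fun i => (imL i).contDiff
  have hn : ContDiff ℝ ∞ (fun v => reL 1 v * reL 1 v + imL 1 v * imL 1 v) :=
    ((hr 1).mul (hr 1)).add ((hi 1).mul (hi 1))
  apply ContDiff.add
  · exact contDiff_const.mul hn
  · apply ContDiff.mul
    · exact (th_smooth.comp hn).pow 2
    · exact (contDiff_const.sub (Real.contDiff_cos.comp (contDiff_const.mul (hr 0)))).sub
        (Real.contDiff_cos.comp (contDiff_const.mul (hi 0)))

lemma ff_smooth (c : ℝ) : ContMDiff 𝓘(ℝ, E 2) 𝓘(ℝ, ℝ) ∞ (ff c) := by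
  intro q
  rw [contMDiffAt_iff]
  constructor
  · have hcont : Continuous (ff c) := by
      have hq : Topology.IsQuotientMap (Torus.proj Lat) :=
        (Torus.isLocalHomeomorph Lat).isOpenMap.isQuotientMap (Torus.continuous_proj Lat)
          (Torus.proj_surjective Lat)
      rw [hq.continuous_iff]
      have : ff c ∘ Torus.proj Lat = G c := by
        funext v; exact ff_proj c v
      rw [this]
      exact (G_smooth c).continuous
    exact hcont.continuousAt
  · have h1 : (extChartAt 𝓘(ℝ, ℝ) (ff c q) ∘ ff c ∘ (extChartAt 𝓘(ℝ, E 2) q).symm) = G c := by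
      funext v
      simp only [Function.comp_apply, mfld_simps]
      change ff c ((chartAt (E 2) q).symm v) = G c v
      rw [Torus.chart_symm Lat (chart_mem_atlas (E 2) q), ff_proj]
    rw [h1]
    exact (G_smooth c).contDiffAt.contDiffWithinAt

theorem not_in_core : Torus.proj Lat 0 ∉ core (n := 2) KK := by
  obtain ⟨B, hB, hb⟩ := exists_bound
  rintro ⟨-, hno⟩
  apply hno
  refine ⟨Torus.proj Lat '' good, (Torus.isLocalHomeomorph Lat).isOpenMap _ isOpen_good, ?_,
    ff (12 * B ^ 2 + 1), ⟨(ff_smooth _).contMDiffOn, ?_⟩, ?_⟩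
  · rintro _ ⟨v, hv, rfl⟩
    refine ⟨v, ?_, rfl⟩
    rcases hv with h | ⟨-, m, n, h⟩
    · left
      rw [Complex.normSq_eq_norm_sq, h]; norm_num
    · right
      have h0 := cos_int 0
      have hre : (v 0).re = 0 + m := by rw [h]; simp
      have him : (v 0).im = 0 + n := by rw [h]; simp
      rw [hre, him, cos_int, cos_int]
      simp
  · rintro q ⟨u, hu, huq⟩ v
    rw [leviForm_ff]
    set x := extChartAt 𝓘(ℂ, E 2) q q with hx
    have hxq : Torus.proj Lat x = q := by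
      rw [← Torus.extChartAt_symm Lat q]
      exact (extChartAt 𝓘(ℂ, E 2) q).left_inv (mem_extChartAt_source q)
    have hxg : x ∈ good := good_periodic (by rw [huq, hxq]) hu
    refine le_trans ?_ (levi_lower B hB hb x v hxg)
    have := Complex.normSq_nonneg (v 0)
    have := Complex.normSq_nonneg (v 1)
    positivity
  · intro v hv
    rw [leviForm_ff]
    set q : MM := Torus.proj Lat 0 with hq
    set x := extChartAt 𝓘(ℂ, E 2) q q with hx
    have hxq : Torus.proj Lat x = q := by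
      rw [← Torus.extChartAt_symm Lat q]
      exact (extChartAt 𝓘(ℂ, E 2) q).left_inv (mem_extChartAt_source q)
    have hxg : x ∈ good := by
      refine good_periodic (u := 0) (by rw [hxq]) ?_
      right
      simp
    refine lt_of_lt_of_le ?_ (levi_lower B hB hb x v hxg)
    obtain ⟨-, h1⟩ := proj_eq (u := 0) (v := x) (by rw [hxq])
    have h2 : x 1 = 0 := by rw [h1]; rfl
    rw [h2, map_zero]
    have h3 := th_pos
    have h4 := Complex.normSq_nonneg (v 0)
    have h5 := Complex.normSq_nonneg (v 1)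
    by_cases hv1 : v 1 = 0
    · have hv0 : v 0 ≠ 0 := by
        intro h0
        apply hv
        rw [eq_mk2 v, h0, hv1]
        ext i; fin_cases i <;> rfl
      have h6 : 0 < Complex.normSq (v 0) := Complex.normSq_pos.mpr hv0
      positivity
    · have h6 : 0 < Complex.normSq (v 1) := Complex.normSq_pos.mpr hv1
      positivity

end Pool.Agent.R229.Nucl
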