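import Mathlib
import Pool.Agent.Helper417.Mer.HartogsExt
import Pool.Agent.Y785.MV.Osg

/-! Tools for normal forms of superattracting skew germs: division by `w` on a bidisc with bounds,
and a contraction lemma for sets of functions with the sup norm. -/

set_option autoImplicit false

namespace Pool.Agent.R229.SkewNF

open Metric Set Filter Topology
open Pool.Agent.Helper417.Mer.Hartogs673

/-- the open bidisc -/
def P (ε r : ℝ) : Set (ℂ × ℂ) := {p | ‖p.1‖ < ε ∧ ‖p.2‖ < r}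

theorem isOpen_P (ε r : ℝ) : IsOpen (P ε r) := by
  have h1 : IsOpen {p : ℂ × ℂ | ‖p.1‖ < ε} := isOpen_lt (by fun_prop) (by fun_prop)
  have h2 : IsOpen {p : ℂ × ℂ | ‖p.2‖ < r} := isOpen_lt (by fun_prop) (by fun_prop)
  exact h1.inter h2

/-- division by `w` -/
noncomputable def dl (F : ℂ × ℂ → ℂ) (p : ℂ × ℂ) : ℂ := dslope (fun w => F (p.1, w)) 0 p.2

theorem dl_eq (F : ℂ × ℂ → ℂ) (p : ℂ × ℂ) : F p = F (p.1, 0) + p.2 * dl F p := by
  have := sub_smul_dslope (fun w => F (p.1, w)) 0 p.2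
  simp only [sub_zero, smul_eq_mul] at this
  unfold dl
  rw [this]
  simp

theorem slice_diff {F : ℂ × ℂ → ℂ} {ε r : ℝ} (hF : DifferentiableOn ℂ F (P ε r)) {z : ℂ}
    (hz : ‖z‖ < ε) : DifferentiableOn ℂ (fun w => F (z, w)) (ball 0 r) := by
  intro w hw
  rw [mem_ball_zero_iff] at hw
  have h1 : DifferentiableAt ℂ F (z, w) := hF.differentiableAt ((isOpen_P ε r).mem_nhds ⟨hz, hw⟩)
  exact (DifferentiableAt.comp w h1 (by fun_prop)).differentiableWithinAt

theorem dl_bound {F : ℂ × ℂ → ℂ} {ε r M : ℝ} (hF : DifferentiableOn ℂ F (P ε r))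
    (hM : ∀ p ∈ P ε r, ‖F p‖ ≤ M) {p : ℂ × ℂ} (hp : p ∈ P ε r) : ‖dl F p‖ ≤ 2 / r * M := by
  obtain ⟨hp1, hp2⟩ := hp
  have hr : 0 < r := (norm_nonneg _).trans_lt hp2
  have h0 : ((p.1, 0) : ℂ × ℂ) ∈ P ε r := ⟨hp1, by simpa using hr⟩
  have key : ∀ R₂ : ℝ, 2 * M < R₂ → ‖dl F p‖ ≤ R₂ / r := by
    intro R₂ hR₂
    refine Complex.norm_dslope_le_div_of_mapsTo_ball (slice_diff hF hp1) ?_ (by simpa using hp2)
    intro w hw
    rw [mem_ball_zero_iff] at hw
    have h1 : ‖F (p.1, w)‖ ≤ M := hM _ ⟨hp1, hw⟩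
    have h2 : ‖F (p.1, 0)‖ ≤ M := hM _ h0
    rw [mem_closedBall, dist_eq_norm]
    exact (norm_sub_le _ _).trans (by linarith)
  have h3 : ‖dl F p‖ * r ≤ 2 * M := by
    apply le_of_forall_gt_imp_ge_of_dense
    intro R hR
    have := key R hR
    rwa [le_div_iff₀ hr] at this
  rw [div_mul_eq_mul_div, le_div_iff₀ hr]
  exact h3

theorem dl_sub {F G : ℂ × ℂ → ℂ} {ε r : ℝ} (hF : DifferentiableOn ℂ F (P ε r))
    (hG : DifferentiableOn ℂ G (P ε r)) {p : ℂ × ℂ} (hp : p ∈ P ε r) :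
    dl (fun q => F q - G q) p = dl F p - dl G p := by
  obtain ⟨hp1, hp2⟩ := hp
  have hr : 0 < r := (norm_nonneg _).trans_lt hp2
  unfold dl
  rcases eq_or_ne p.2 0 with h | h
  · rw [h, dslope_same, dslope_same, dslope_same]
    have hf : DifferentiableAt ℂ (fun w => F (p.1, w)) 0 :=
      (slice_diff hF hp1).differentiableAt (ball_mem_nhds _ hr)
    have hg : DifferentiableAt ℂ (fun w => G (p.1, w)) 0 :=
      (slice_diff hG hp1).differentiableAt (ball_mem_nhds _ hr)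
    exact deriv_fun_sub hf hg
  · rw [dslope_of_ne _ h, dslope_of_ne _ h, dslope_of_ne _ h]
    simp only [slope_def_field]
    ring

theorem dl_congr {F G : ℂ × ℂ → ℂ} {ε r : ℝ} (hFG : ∀ p ∈ P ε r, F p = G p) {p : ℂ × ℂ}
    (hp : p ∈ P ε r) : dl F p = dl G p := by
  obtain ⟨hp1, hp2⟩ := hp
  have hr : 0 < r := (norm_nonneg _).trans_lt hp2
  unfold dl
  rcases eq_or_ne p.2 0 with h | h
  · rw [h, dslope_same, dslope_same]
    apply Filter.EventuallyEq.deriv_eq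
    filter_upwards [ball_mem_nhds (0:ℂ) hr] with w hw
    exact hFG _ ⟨hp1, by simpa using hw⟩
  · rw [dslope_of_ne _ h, dslope_of_ne _ h]
    simp only [slope_def_field]
    rw [hFG (p.1, p.2) ⟨hp1, hp2⟩, hFG (p.1, 0) ⟨hp1, by simpa using hr⟩]

theorem dl_diff {F : ℂ × ℂ → ℂ} {ε r : ℝ} (hF : DifferentiableOn ℂ F (P ε r)) :
    DifferentiableOn ℂ (dl F) (P ε r) := by
  intro p0 hp0
  obtain ⟨hp1, hp2⟩ := hp0
  obtain ⟨ρ, hρ1, hρ2⟩ := exists_between hp2
  have hρ : 0 < ρ := (norm_nonneg _).trans_lt hρ1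
  have hr : 0 < r := hρ.trans hρ2
  set Ω : Set ((ℂ × ℂ) × ℂ) := {q | ‖q.1.1‖ < ε ∧ ‖q.1.2‖ < ‖q.2‖ ∧ ‖q.2‖ < r} with hΩ
  have hΩo : IsOpen Ω := by
    have h1 : IsOpen {q : (ℂ × ℂ) × ℂ | ‖q.1.1‖ < ε} := isOpen_lt (by fun_prop) (by fun_prop)
    have h2 : IsOpen {q : (ℂ × ℂ) × ℂ | ‖q.1.2‖ < ‖q.2‖} := isOpen_lt (by fun_prop) (by fun_prop)
    have h3 : IsOpen {q : (ℂ × ℂ) × ℂ | ‖q.2‖ < r} := isOpen_lt (by fun_prop) (by fun_prop)
    exact h1.inter (h2.inter h3)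
  set K : (ℂ × ℂ) × ℂ → ℂ := fun q =>
    (q.2 - q.1.2)⁻¹ • ((q.2)⁻¹ * (F (q.1.1, q.2) - F (q.1.1, 0))) with hK
  have hKd : DifferentiableOn ℂ K Ω := by
    intro q hq
    obtain ⟨h1, h2, h3⟩ := hq
    have hq2 : q.2 ≠ 0 := by
      intro h
      rw [h, norm_zero] at h2
      exact absurd h2 (not_lt.2 (norm_nonneg _))
    have h5 : q.2 - q.1.2 ≠ 0 := by
      intro h
      rw [sub_eq_zero] at h
      rw [h] at h2
      exact lt_irrefl _ h2
    have h6 : DifferentiableAt ℂ F (q.1.1, q.2) :=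
      hF.differentiableAt ((isOpen_P ε r).mem_nhds ⟨h1, h3⟩)
    have h6' : DifferentiableAt ℂ F (q.1.1, 0) :=
      hF.differentiableAt ((isOpen_P ε r).mem_nhds ⟨h1, by simpa using hr⟩)
    have h7 : DifferentiableAt ℂ (fun q : (ℂ × ℂ) × ℂ => F (q.1.1, q.2)) q :=
      DifferentiableAt.comp q h6 (by fun_prop)
    have h7' : DifferentiableAt ℂ (fun q : (ℂ × ℂ) × ℂ => F (q.1.1, 0)) q :=
      DifferentiableAt.comp (g := F) (f := fun q : (ℂ × ℂ) × ℂ => (q.1.1, (0:ℂ))) q h6'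
        (by fun_prop)
    have h8 : DifferentiableAt ℂ (fun q : (ℂ × ℂ) × ℂ => (q.2 - q.1.2)⁻¹) q := by
      have h9 : DifferentiableAt ℂ (fun q : (ℂ × ℂ) × ℂ => q.2 - q.1.2) q := by fun_prop
      exact h9.inv h5
    have h10 : DifferentiableAt ℂ (fun q : (ℂ × ℂ) × ℂ => (q.2)⁻¹) q := by
      have h9 : DifferentiableAt ℂ (fun q : (ℂ × ℂ) × ℂ => q.2) q := by fun_prop
      exact h9.inv hq2
    exact (h8.smul (h10.mul (h7.sub h7'))).differentiableWithinAt
  have hI := param_circle hΩo hKd (r := ρ) (isOpen_P ε ρ) (by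
    intro p hp ξ hξ
    rw [mem_sphere_zero_iff_norm, abs_of_pos hρ] at hξ
    refine ⟨hp.1, ?_, ?_⟩
    · show ‖p.2‖ < ‖ξ‖
      rw [hξ]; exact hp.2
    · show ‖ξ‖ < r
      rw [hξ]; exact hρ2)
  have heq : ∀ p ∈ P ε ρ, dl F p =
      (2 * Real.pi * Complex.I : ℂ)⁻¹ • ∮ ξ in C(0, ρ), K (p, ξ) := by
    intro p hp
    have hds : DifferentiableOn ℂ (dslope (fun w => F (p.1, w)) 0) (ball 0 r) :=
      (Complex.differentiableOn_dslope (ball_mem_nhds _ hr)).2 (slice_diff hF hp.1)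
    have hdc : DiffContOnCl ℂ (dslope (fun w => F (p.1, w)) 0) (ball 0 ρ) := by
      apply DifferentiableOn.diffContOnCl
      rw [closure_ball _ hρ.ne']
      exact hds.mono (closedBall_subset_ball hρ2)
    have h1 := hdc.two_pi_i_inv_smul_circleIntegral_sub_inv_smul (w := p.2) (by simpa using hp.2)
    unfold dl
    rw [← h1]
    congr 1
    apply circleIntegral.integral_congr hρ.le
    intro ξ hξ
    rw [mem_sphere_zero_iff_norm] at hξ
    have hξ0 : ξ ≠ 0 := by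
      intro h
      rw [h, norm_zero] at hξ
      exact hρ.ne hξ
    simp only [hK]
    rw [dslope_of_ne _ hξ0, slope_def_field, sub_zero]
    congr 1
    rw [div_eq_inv_mul]
  have hmem : P ε ρ ∈ 𝓝 p0 := (isOpen_P ε ρ).mem_nhds ⟨hp1, hρ1⟩
  have h2 : DifferentiableAt ℂ
      (fun p => (2 * Real.pi * Complex.I : ℂ)⁻¹ • ∮ ξ in C(0, ρ), K (p, ξ)) p0 :=
    (hI.differentiableAt hmem).fun_const_smul (2 * Real.pi * Complex.I : ℂ)⁻¹
  have h3 : dl F =ᶠ[𝓝 p0] (fun p => (2 * Real.pi * Complex.I : ℂ)⁻¹ • ∮ ξ in C(0, ρ), K (p, ξ)) :=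
    Filter.eventuallyEq_of_mem hmem heq
  exact (h2.congr_of_eventuallyEq h3).differentiableWithinAt

/-! iterates -/

theorem dli_diff {F : ℂ × ℂ → ℂ} {ε r : ℝ} (hF : DifferentiableOn ℂ F (P ε r)) (j : ℕ) :
    DifferentiableOn ℂ (dl^[j] F) (P ε r) := by
  induction j with
  | zero => exact hF
  | succ j ih =>
    rw [Function.iterate_succ_apply']
    exact dl_diff ih

theorem dli_bound {F : ℂ × ℂ → ℂ} {ε r M : ℝ} (hF : DifferentiableOn ℂ F (P ε r))
    (hM : ∀ p ∈ P ε r, ‖F p‖ ≤ M) (j : ℕ) :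
    ∀ p ∈ P ε r, ‖(dl^[j] F) p‖ ≤ (2 / r) ^ j * M := by
  induction j with
  | zero => intro p hp; simpa using hM p hp
  | succ j ih =>
    intro p hp
    rw [Function.iterate_succ_apply']
    refine (dl_bound (dli_diff hF j) ih hp).trans (le_of_eq ?_)
    ring

theorem dli_sub {F G : ℂ × ℂ → ℂ} {ε r : ℝ} (hF : DifferentiableOn ℂ F (P ε r))
    (hG : DifferentiableOn ℂ G (P ε r)) (j : ℕ) : ∀ p ∈ P ε r,
    (dl^[j] (fun q => F q - G q)) p = (dl^[j] F) p - (dl^[j] G) p := by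
  induction j with
  | zero => intro p hp; rfl
  | succ j ih =>
    intro p hp
    rw [Function.iterate_succ_apply', Function.iterate_succ_apply', Function.iterate_succ_apply',
      ← dl_sub (dli_diff hF j) (dli_diff hG j) hp]
    exact dl_congr ih hp

theorem dli_eq (F : ℂ × ℂ → ℂ) (j : ℕ) (p : ℂ × ℂ) :
    F p = (∑ i ∈ Finset.range j, (dl^[i] F) (p.1, 0) * p.2 ^ i) + p.2 ^ j * (dl^[j] F) p := by
  induction j with
  | zero => simp
  | succ j ih =>
    rw [Finset.sum_range_succ, Function.iterate_succ_apply']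
    have := dl_eq (dl^[j] F) p
    calc F p = _ := ih
      _ = _ := by rw [this]; ring

/-- contraction principle for sets of functions bounded on `P` with sup norm -/
theorem picard {X : Type*} (Q : Set X) (B : Set (X → ℂ)) (C : ℝ)
    (hlim : ∀ (F : ℕ → X → ℂ) (G : X → ℂ), (∀ n, F n ∈ B) → TendstoUniformlyOn F G atTop Q → G ∈ B)
    (N : (X → ℂ) → (X → ℂ)) (hmap : ∀ F ∈ B, N F ∈ B)
    (hcon : ∀ F ∈ B, ∀ G ∈ B, ∀ δ : ℝ, 0 ≤ δ → (∀ x ∈ Q, ‖F x - G x‖ ≤ δ) →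
      ∀ x ∈ Q, ‖N F x - N G x‖ ≤ δ / 2)
    (hbd : ∀ F ∈ B, ∀ x ∈ Q, ‖F x‖ ≤ C) (F0 : X → ℂ) (hF0 : F0 ∈ B) :
    ∃ F ∈ B, ∀ x ∈ Q, N F x = F x := by
  rcases Q.eq_empty_or_nonempty with hQ | ⟨x0, hx0⟩
  · exact ⟨F0, hF0, by simp [hQ]⟩
  have hC : 0 ≤ C := (norm_nonneg _).trans (hbd F0 hF0 x0 hx0)
  set F : ℕ → X → ℂ := fun n => N^[n] F0 with hF
  have hFB : ∀ n, F n ∈ B := by
    intro n
    induction n with
    | zero => exact hF0
    | succ n ih =>
      simp only [hF] at *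
      rw [Function.iterate_succ_apply']
      exact hmap _ ih
  have hFs : ∀ n, F (n + 1) = N (F n) := fun n => Function.iterate_succ_apply' N n F0
  have hstep : ∀ n, ∀ x ∈ Q, ‖F (n + 1) x - F n x‖ ≤ 2 * C / 2 / 2 ^ n * 2:= by
    intro n
    induction n with
    | zero =>
      intro x hx
      have h1 := hbd _ (hFB 1) x hx
      have h2 := hbd _ (hFB 0) x hx
      refine (norm_sub_le _ _).trans ?_
      simp only [zero_add, pow_zero]
      linarith
    | succ n ih =>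
      intro x hx
      rw [hFs (n + 1)]
      conv_lhs => rw [hFs n]
      have := hcon _ (hFB (n + 1)) _ (hFB n) _ (by positivity) ih x hx
      rw [hFs n] at this
      refine this.trans (le_of_eq ?_)
      rw [pow_succ]
      field_simp
  have hcau : UniformCauchySeqOn F atTop Q := by
    rw [Metric.uniformCauchySeqOn_iff]
    intro e he
    have ht : Tendsto (fun n : ℕ => 4 * C * (1 / 2 : ℝ) ^ n) atTop (𝓝 0) := by
      have := tendsto_pow_atTop_nhds_zero_of_lt_one (r := (1 / 2 : ℝ)) (by norm_num) (by norm_num)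
      simpa using this.const_mul (4 * C)
    obtain ⟨n0, hn0⟩ := (ht.eventually_lt_const (half_pos he)).exists_forall_of_atTop
    have hge : ∀ k, ∀ x ∈ Q, ‖F (n0 + k) x - F n0 x‖ ≤ 4 * C * (1 / 2 : ℝ) ^ n0 *
        (1 - (1 / 2 : ℝ) ^ k) := by
      intro k
      induction k with
      | zero => intro x hx; simp
      | succ k ih =>
        intro x hx
        have h1 := hstep (n0 + k) x hx
        have h2 := ih x hx
        have h3 : F (n0 + (k + 1)) x - F n0 x =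
            (F (n0 + k + 1) x - F (n0 + k) x) + (F (n0 + k) x - F n0 x) := by
          rw [← add_assoc]; ring
        rw [h3]
        refine (norm_add_le _ _).trans ?_
        refine (add_le_add h1 h2).trans (le_of_eq ?_)
        rw [pow_add, pow_succ, one_div, inv_pow, inv_pow]
        field_simp
        ring
    have hall : ∀ m ≥ n0, ∀ x ∈ Q, ‖F m x - F n0 x‖ < e / 2 := by
      intro m hm x hx
      obtain ⟨k, rfl⟩ := Nat.exists_eq_add_of_le hm
      refine (hge k x hx).trans_lt (lt_of_le_of_lt ?_ (hn0 n0 le_rfl))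
      have h5 : (0:ℝ) ≤ 4 * C * (1 / 2 : ℝ) ^ n0 := by positivity
      have h6 : (1 - (1 / 2 : ℝ) ^ k) ≤ 1 := by
        have : (0:ℝ) ≤ (1 / 2 : ℝ) ^ k := by positivity
        linarith
      nlinarith
    refine ⟨n0, fun m hm n hn x hx => ?_⟩
    rw [dist_eq_norm]
    have h1 := hall m hm x hx
    have h2 := hall n hn x hx
    calc ‖F m x - F n x‖ = ‖(F m x - F n0 x) - (F n x - F n0 x)‖ := by congr 1; ring
      _ ≤ ‖F m x - F n0 x‖ + ‖F n x - F n0 x‖ := norm_sub_le _ _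
      _ < e := by linarith
  have hex : ∀ x ∈ Q, ∃ y : ℂ, Tendsto (fun n => F n x) atTop (𝓝 y) := by
    intro x hx
    exact cauchySeq_tendsto_of_complete (hcau.cauchySeq hx)
  choose! G hG using hex
  have hu : TendstoUniformlyOn F G atTop Q := hcau.tendstoUniformlyOn_of_tendsto hG
  have hGB : G ∈ B := hlim F G hFB hu
  refine ⟨G, hGB, fun x hx => ?_⟩
  have h1 : Tendsto (fun n => F (n + 1) x) atTop (𝓝 (N G x)) := by
    rw [Metric.tendsto_atTop]
    intro e he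
    obtain ⟨n0, hn0⟩ := (Metric.tendstoUniformlyOn_iff.1 hu e he).exists_forall_of_atTop
    refine ⟨n0, fun n hn => ?_⟩
    rw [hFs n, dist_eq_norm]
    have := hcon _ (hFB n) _ hGB e he.le (fun y hy => by
      have := hn0 n hn y hy
      rw [dist_comm, dist_eq_norm] at this
      exact this.le) x hx
    linarith
  have h2 : Tendsto (fun n => F (n + 1) x) atTop (𝓝 (G x)) :=
    (hG x hx).comp (tendsto_add_atTop_nat 1)
  exact tendsto_nhds_unique h1 h2

end Pool.Agent.R229.SkewNF
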