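import Mathlib
import Pool.Agent.R229.SkewNF

/-! Normal forms of superattracting skew germs -/

set_option autoImplicit false

namespace Pool.Agent.R229.SkewNF

open Metric Set Filter Topology
open Pool.Agent.Helper417.Mer.Hartogs673

/-- `((w+t)^j - w^j)/t` -/
noncomputable def Dj (j : ℕ) (w t : ℂ) : ℂ := ∑ i ∈ Finset.range j, (w + t) ^ i * w ^ (j - 1 - i)

theorem Dj_eq (j : ℕ) (w t : ℂ) : (w + t) ^ j = w ^ j + t * Dj j w t := by
  have := geom_sum₂_mul (w + t) w j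
  unfold Dj
  rw [add_sub_cancel_left] at this
  rw [mul_comm t, this]
  ring

/-- the second order remainder of `(w+t)^c` -/
noncomputable def Qt (c : ℕ) (w t : ℂ) : ℂ := ∑ i ∈ Finset.range c, w ^ (c - 1 - i) * Dj i w t

theorem Qt_eq (c : ℕ) (w t : ℂ) :
    (w + t) ^ c = w ^ c + c * w ^ (c - 1) * t + t ^ 2 * Qt c w t := by
  rw [Dj_eq]
  have h1 : Dj c w t = c * w ^ (c - 1) + t * Qt c w t := by
    unfold Qt
    rw [Finset.mul_sum]
    conv_lhs => unfold Dj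
    have h2 : (c : ℂ) * w ^ (c - 1) = ∑ i ∈ Finset.range c, w ^ (c - 1) := by
      rw [Finset.sum_const, Finset.card_range, nsmul_eq_mul]
    rw [h2, ← Finset.sum_add_distrib]
    refine Finset.sum_congr rfl fun i hi => ?_
    rw [Finset.mem_range] at hi
    have h3 : w ^ (c - 1) = w ^ i * w ^ (c - 1 - i) := by
      rw [← pow_add]
      congr 1
      omega
    rw [Dj_eq i w t, h3]
    ring
  rw [h1]
  ring

/-- the type of arguments -/
abbrev Arg (c : ℕ) : Type := ℂ × ℂ × ℂ × ℂ × (Fin c → ℂ)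

/-- the nonlinearity -/
noncomputable def Gf (c d : ℕ) (x : Arg c) : ℂ :=
  x.1 ^ (d - 2) * x.2.2.2.1 - (x.2.2.1 ^ 2 * Qt c x.2.1 (x.1 * x.2.2.1) +
    ∑ j : Fin c, x.2.2.2.2 j * x.2.2.1 * Dj j x.2.1 (x.1 * x.2.2.1))

theorem Gf_contDiff (c d : ℕ) : ContDiff ℂ 1 (Gf c d) := by
  unfold Gf Qt Dj
  fun_prop

theorem Gf_lip (c d : ℕ) (K : ℝ) : ∃ L : ℝ, 0 < L ∧ (∀ x : Arg c, ‖x‖ ≤ K → ‖Gf c d x‖ ≤ L) ∧
    ∀ x y : Arg c, ‖x‖ ≤ K → ‖y‖ ≤ K → ‖Gf c d x - Gf c d y‖ ≤ L * ‖x - y‖ := by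
  have hK : IsCompact (closedBall (0 : Arg c) K) := isCompact_closedBall _ _
  obtain ⟨L1, hL1⟩ := hK.exists_bound_of_continuousOn (Gf_contDiff c d).continuous.continuousOn
  obtain ⟨L2, hL2⟩ := hK.exists_bound_of_continuousOn
    ((Gf_contDiff c d).continuous_fderiv (by simp)).continuousOn
  refine ⟨max 1 (max L1 L2), lt_of_lt_of_le one_pos (le_max_left _ _), fun x hx => ?_,
    fun x y hx hy => ?_⟩
  · exact (hL1 x (by simpa using hx)).trans ((le_max_left _ _).trans (le_max_right _ _))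
  · have := (convex_closedBall (0 : Arg c) K).norm_image_sub_le_of_norm_fderiv_le
      (𝕜 := ℂ) (f := Gf c d) (C := L2) (x := y) (y := x)
      (fun z _ => (Gf_contDiff c d).differentiable (by simp) z) hL2
      (by simpa using hy) (by simpa using hx)
    refine this.trans ?_
    gcongr
    exact (le_max_right _ _).trans (le_max_right _ _)

/-- the correction `φ` attached to `ρ` -/
noncomputable def phi (c : ℕ) (ρ : ℂ × ℂ → ℂ) (p : ℂ × ℂ) : ℂ := p.2 * (dl^[c] ρ) p / c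

/-- the germ -/
noncomputable def ff (c d : ℕ) (h : ℂ × ℂ → ℂ) (p : ℂ × ℂ) : ℂ × ℂ := (p.1 ^ d, p.2 ^ c + p.1 * h p)

/-- arguments of the nonlinearity -/
noncomputable def arg (c d : ℕ) (h : ℂ × ℂ → ℂ) (ρ : ℂ × ℂ → ℂ) (p : ℂ × ℂ) : Arg c :=
  (p.1, p.2, phi c ρ p, phi c ρ (ff c d h p), fun j => (dl^[(j:ℕ)] ρ) (p.1, 0))

/-- the nonlinear operator -/
noncomputable def NN (c d : ℕ) (h : ℂ × ℂ → ℂ) (ρ : ℂ × ℂ → ℂ) (p : ℂ × ℂ) : ℂ :=
  h p + p.1 * Gf c d (arg c d h ρ p)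

/-- the conjugacy equation from the fixed point equation -/
theorem conj_eq (c d : ℕ) (hc : 2 ≤ c) (hd : 2 ≤ d) (h ρ : ℂ × ℂ → ℂ) (p : ℂ × ℂ)
    (hfix : NN c d h ρ p = ρ p) :
    (p.2 ^ c + p.1 * h p) + p.1 ^ d * phi c ρ (ff c d h p) =
      (p.2 + p.1 * phi c ρ p) ^ c +
        ∑ j : Fin c, (p.1 * (dl^[(j:ℕ)] ρ) (p.1, 0)) * (p.2 + p.1 * phi c ρ p) ^ (j:ℕ) := by
  have h1 : ρ p = (∑ j : Fin c, (dl^[(j:ℕ)] ρ) (p.1, 0) * p.2 ^ (j:ℕ)) +
      c * p.2 ^ (c - 1) * phi c ρ p := by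
    rw [dli_eq ρ c p]
    congr 1
    · exact Finset.sum_range (fun i => (dl^[i] ρ) (p.1, 0) * p.2 ^ i)
    · unfold phi
      have hc0 : (c : ℂ) ≠ 0 := Nat.cast_ne_zero.2 (by omega)
      have h2 : p.2 ^ c = p.2 ^ (c - 1) * p.2 := by
        rw [← pow_succ]
        congr 1
        omega
      rw [h2]
      field_simp
  have h3 : p.1 ^ d = p.1 ^ 2 * p.1 ^ (d - 2) := by
    rw [← pow_add]
    congr 1
    omega
  unfold NN Gf arg at hfix
  simp only at hfix
  set φ := phi c ρ p with hφ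
  set χ := phi c ρ (ff c d h p) with hχ
  rw [Qt_eq c p.2 (p.1 * φ)]
  have h4 : ∑ j : Fin c, (p.1 * (dl^[(j:ℕ)] ρ) (p.1, 0)) * (p.2 + p.1 * φ) ^ (j:ℕ) =
      p.1 * (∑ j : Fin c, (dl^[(j:ℕ)] ρ) (p.1, 0) * p.2 ^ (j:ℕ)) +
      p.1 ^ 2 * ∑ j : Fin c, (dl^[(j:ℕ)] ρ) (p.1, 0) * φ * Dj j p.2 (p.1 * φ) := by
    rw [Finset.mul_sum, Finset.mul_sum, ← Finset.sum_add_distrib]
    refine Finset.sum_congr rfl fun j _ => ?_
    rw [Dj_eq]
    ring
  rw [h4, h3]
  have h5 : (∑ j : Fin c, (dl^[(j:ℕ)] ρ) (p.1, 0) * p.2 ^ (j:ℕ)) =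
      ρ p - c * p.2 ^ (c - 1) * φ := by rw [h1]; ring
  rw [h5, ← hfix]
  ring

theorem phi_diff (c : ℕ) {ρ : ℂ × ℂ → ℂ} {ε r : ℝ} (hρ : DifferentiableOn ℂ ρ (P ε r)) :
    DifferentiableOn ℂ (phi c ρ) (P ε r) := by
  have := dli_diff hρ c
  unfold phi
  fun_prop

theorem P_mono_half {ε r : ℝ} {p : ℂ × ℂ} (hp : p ∈ P ε r) : ∃ R > 0, ball p R ⊆ P ε r :=
  Metric.isOpen_iff.1 (isOpen_P ε r) p hp

/-- the fixed point -/
theorem exists_fix (c d : ℕ) (hc : 2 ≤ c) (hd : 2 ≤ d) (h : ℂ × ℂ → ℂ) (hh : AnalyticAt ℂ h 0) :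
    ∃ ε r : ℝ, 0 < ε ∧ 0 < r ∧ ∃ ρ : ℂ × ℂ → ℂ, DifferentiableOn ℂ ρ (P ε r) ∧
      ∀ p ∈ P ε r, NN c d h ρ p = ρ p := by
  -- a bidisc where `h` is holomorphic and bounded
  obtain ⟨H, r, hr0, hr1, hhd, hhb⟩ : ∃ H r : ℝ, 0 < r ∧ r < 1 ∧ DifferentiableOn ℂ h (P r r) ∧
      ∀ p ∈ P r r, ‖h p‖ ≤ H := by
    obtain ⟨s, hs, hs2⟩ := (hh.eventually_analyticAt).exists_mem
    obtain ⟨R, hR, hRs⟩ := Metric.mem_nhds_iff.1 hs
    have h1 : ∀ᶠ p in 𝓝 (0 : ℂ × ℂ), ‖h p‖ < ‖h 0‖ + 1 :=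
      hh.continuousAt.norm.eventually_lt continuousAt_const (by simp)
    obtain ⟨R', hR', hR's⟩ := Metric.eventually_nhds_iff_ball.1 h1
    refine ⟨‖h 0‖ + 1, min (min R R') (1/2), by positivity, ?_, ?_, ?_⟩
    · exact lt_of_le_of_lt (min_le_right _ _) (by norm_num)
    · intro p hp
      have hp' : p ∈ ball (0 : ℂ × ℂ) R := by
        rw [mem_ball_zero_iff, Prod.norm_def]
        exact max_lt (hp.1.trans_le ((min_le_left _ _).trans (min_le_left _ _)))
          (hp.2.trans_le ((min_le_left _ _).trans (min_le_left _ _)))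
      exact (hs2 p (hRs hp')).differentiableAt.differentiableWithinAt
    · intro p hp
      have hp' : p ∈ ball (0 : ℂ × ℂ) R' := by
        rw [mem_ball_zero_iff, Prod.norm_def]
        exact max_lt (hp.1.trans_le ((min_le_left _ _).trans (min_le_right _ _)))
          (hp.2.trans_le ((min_le_left _ _).trans (min_le_right _ _)))
      exact (hR's p hp').le
  have hH0 : 0 ≤ H := (norm_nonneg _).trans (hhb 0 ⟨by simpa using hr0, by simpa using hr0⟩)
  -- constants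
  set M : ℝ := H + 1 with hM
  have hM1 : 1 ≤ M := by linarith
  set K : ℝ := (2 / r) ^ c with hK
  have h2r : 1 ≤ 2 / r := by
    rw [one_le_div hr0]
    linarith
  have hK1 : 1 ≤ K := one_le_pow₀ h2r
  have hKj : ∀ j ≤ c, (2 / r) ^ j ≤ K := fun j hj => pow_le_pow_right₀ h2r hj
  obtain ⟨L, hL0, hLb, hLl⟩ := Gf_lip c d (K * M)
  have hKM : 1 ≤ K * M := one_le_mul_of_one_le_of_one_le hK1 hM1
  set ε : ℝ := min (min r (1 / L)) (min ((r - r ^ 2) / (H + 1)) (1 / (2 * L * K))) with hε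
  have hrr : 0 < r - r ^ 2 := by nlinarith
  have hε0 : 0 < ε := by
    rw [hε]
    positivity
  have hεr : ε ≤ r := (min_le_left _ _).trans (min_le_left _ _)
  have hεL : ε * L ≤ 1 := by
    have : ε ≤ 1 / L := (min_le_left _ _).trans (min_le_right _ _)
    rwa [le_div_iff₀ hL0] at this
  have hεH : ε * (H + 1) ≤ r - r ^ 2 := by
    have : ε ≤ (r - r ^ 2) / (H + 1) := (min_le_right _ _).trans (min_le_left _ _)
    rwa [le_div_iff₀ (by linarith)] at this
  have hεK : ε * (2 * L * K) ≤ 1 := by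
    have : ε ≤ 1 / (2 * L * K) := (min_le_right _ _).trans (min_le_right _ _)
    rwa [le_div_iff₀ (by positivity)] at this
  have hPP : P ε r ⊆ P r r := fun p hp => ⟨hp.1.trans_le hεr, hp.2⟩
  have hfm : ∀ p ∈ P ε r, ff c d h p ∈ P ε r := by
    intro p hp
    obtain ⟨hp1, hp2⟩ := hp
    refine ⟨?_, ?_⟩
    · show ‖p.1 ^ d‖ < ε
      rw [norm_pow]
      refine lt_of_le_of_lt ?_ hp1
      exact pow_le_of_le_one (norm_nonneg _) (by linarith) (by omega)
    · show ‖p.2 ^ c + p.1 * h p‖ < r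
      have h1 : ‖p.2 ^ c‖ ≤ r ^ 2 := by
        rw [norm_pow]
        calc ‖p.2‖ ^ c ≤ ‖p.2‖ ^ 2 := pow_le_pow_of_le_one (norm_nonneg _) (by linarith) hc
          _ ≤ r ^ 2 := by gcongr
      have h2 : ‖p.1 * h p‖ ≤ ε * H := by
        rw [norm_mul]
        exact mul_le_mul hp1.le (hhb p (hPP ⟨hp1, hp2⟩)) (norm_nonneg _) hε0.le
      refine lt_of_le_of_lt (norm_add_le _ _) ?_
      nlinarith
  have hffd : DifferentiableOn ℂ (ff c d h) (P ε r) := by
    have := hhd.mono hPP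
    unfold ff
    fun_prop
  -- the set of functions
  set B : Set (ℂ × ℂ → ℂ) := {F | DifferentiableOn ℂ F (P ε r) ∧ ∀ p ∈ P ε r, ‖F p‖ ≤ M} with hB
  have hφb : ∀ F : ℂ × ℂ → ℂ, ∀ m : ℝ, 0 ≤ m → DifferentiableOn ℂ F (P ε r) →
      (∀ p ∈ P ε r, ‖F p‖ ≤ m) → ∀ p ∈ P ε r, ‖phi c F p‖ ≤ K * m := by
    intro F m hm hF hFm p hp
    have h1 := dli_bound hF hFm c p hp
    unfold phi
    rw [norm_div, norm_mul, Complex.norm_natCast]
    have h2 : ‖p.2‖ ≤ 1 := hp.2.le.trans hr1.le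
    have h3 : (1 : ℝ) ≤ c := by
      have : 1 ≤ c := by omega
      exact_mod_cast this
    calc ‖p.2‖ * ‖(dl^[c] F) p‖ / c ≤ ‖p.2‖ * ‖(dl^[c] F) p‖ := div_le_self (by positivity) h3
      _ ≤ 1 * ((2 / r) ^ c * m) := by gcongr
      _ = K * m := by rw [one_mul]
  have hargb : ∀ F ∈ B, ∀ p ∈ P ε r, ‖arg c d h F p‖ ≤ K * M := by
    intro F hF p hp
    unfold arg
    rw [Prod.norm_mk, Prod.norm_mk, Prod.norm_mk, Prod.norm_mk]
    have hp0 : ((p.1, 0) : ℂ × ℂ) ∈ P ε r := ⟨hp.1, by simpa using hr0⟩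
    refine max_le ?_ (max_le ?_ (max_le ?_ (max_le ?_ ?_)))
    · exact (hp.1.le.trans (hεr.trans hr1.le)).trans hKM
    · exact (hp.2.le.trans hr1.le).trans hKM
    · exact hφb F M (by linarith) hF.1 hF.2 p hp
    · exact hφb F M (by linarith) hF.1 hF.2 _ (hfm p hp)
    · rw [pi_norm_le_iff_of_nonneg (by linarith)]
      intro j
      refine (dli_bound hF.1 hF.2 j _ hp0).trans ?_
      exact mul_le_mul_of_nonneg_right (hKj j j.2.le) (by linarith)
  have hphisub : ∀ F ∈ B, ∀ G ∈ B, ∀ p ∈ P ε r, phi c F p - phi c G p =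
      phi c (fun q => F q - G q) p := by
    intro F hF G hG p hp
    unfold phi
    rw [dli_sub hF.1 hG.1 c p hp]
    ring
  have hargs : ∀ F ∈ B, ∀ G ∈ B, ∀ δ : ℝ, 0 ≤ δ → (∀ x ∈ P ε r, ‖F x - G x‖ ≤ δ) →
      ∀ p ∈ P ε r, ‖arg c d h F p - arg c d h G p‖ ≤ K * δ := by
    intro F hF G hG δ hδ hFG p hp
    have hKδ : 0 ≤ K * δ := by positivity
    have hp0 : ((p.1, 0) : ℂ × ℂ) ∈ P ε r := ⟨hp.1, by simpa using hr0⟩
    have hd1 : DifferentiableOn ℂ (fun q => F q - G q) (P ε r) := hF.1.sub hG.1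
    have e1 : arg c d h F p - arg c d h G p = (0, 0, phi c (fun q => F q - G q) p,
        phi c (fun q => F q - G q) (ff c d h p),
        fun j : Fin c => (dl^[(j:ℕ)] (fun q => F q - G q)) (p.1, 0)) := by
      unfold arg
      rw [Prod.mk_sub_mk, Prod.mk_sub_mk, Prod.mk_sub_mk, Prod.mk_sub_mk, sub_self, sub_self,
        hphisub F hF G hG p hp, hphisub F hF G hG _ (hfm p hp)]
      congr 4
      funext j
      rw [Pi.sub_apply, dli_sub hF.1 hG.1 j _ hp0]
    rw [e1, Prod.norm_mk, Prod.norm_mk, Prod.norm_mk, Prod.norm_mk]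
    refine max_le ?_ (max_le ?_ (max_le ?_ (max_le ?_ ?_)))
    · simpa using hKδ
    · simpa using hKδ
    · exact hφb _ δ hδ hd1 hFG p hp
    · exact hφb _ δ hδ hd1 hFG _ (hfm p hp)
    · rw [pi_norm_le_iff_of_nonneg hKδ]
      intro j
      refine (dli_bound hd1 hFG j _ hp0).trans ?_
      exact mul_le_mul_of_nonneg_right (hKj j j.2.le) hδ
  obtain ⟨ρ, hρB, hρ⟩ := picard (P ε r) B M
    (by
      intro F G hF hlim
      refine ⟨?_, ?_⟩
      · intro p hp
        obtain ⟨R, hR, hRs⟩ := P_mono_half hp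
        have h1 := differentiableOn_of_uniform_limit (c := p) (R := R)
          (fun n => (hF n).1.mono hRs) (hlim.mono hRs)
        exact (h1.differentiableAt (ball_mem_nhds p (by linarith))).differentiableWithinAt
      · intro p hp
        exact le_of_tendsto (hlim.tendsto_at hp).norm (Eventually.of_forall fun n => (hF n).2 p hp))
    (NN c d h)
    (by
      intro F hF
      refine ⟨?_, ?_⟩
      · have h1 : DifferentiableOn ℂ (arg c d h F) (P ε r) := by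
          unfold arg
          have h2 : DifferentiableOn ℂ (phi c F) (P ε r) := phi_diff c hF.1
          have h3 : DifferentiableOn ℂ (fun p => phi c F (ff c d h p)) (P ε r) :=
            h2.comp hffd hfm
          have h4 : DifferentiableOn ℂ (fun p : ℂ × ℂ => fun j : Fin c =>
              (dl^[(j:ℕ)] F) (p.1, 0)) (P ε r) := by
            rw [differentiableOn_pi]
            intro j
            refine (dli_diff hF.1 (j:ℕ)).comp (t := P ε r) (f := fun p : ℂ × ℂ => (p.1, (0:ℂ)))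
              (by fun_prop) ?_
            intro p hp
            exact ⟨hp.1, by simpa using hr0⟩
          exact differentiableOn_fst.prodMk (differentiableOn_snd.prodMk
            (h2.prodMk (h3.prodMk h4)))
        have h5 : DifferentiableOn ℂ (fun p => Gf c d (arg c d h F p)) (P ε r) :=
          ((Gf_contDiff c d).differentiable (by simp)).comp_differentiableOn h1
        exact (hhd.mono hPP).add (differentiableOn_fst.mul h5)
      · intro p hp
        have h1 := hLb _ (hargb F hF p hp)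
        unfold NN
        refine (norm_add_le _ _).trans ?_
        rw [norm_mul]
        have h2 : ‖p.1‖ * ‖Gf c d (arg c d h F p)‖ ≤ ε * L :=
          mul_le_mul hp.1.le h1 (norm_nonneg _) hε0.le
        linarith [hhb p (hPP hp)])
    (by
      intro F hF G hG δ hδ hFG p hp
      have h1 := hargs F hF G hG δ hδ hFG p hp
      have h2 := hLl _ _ (hargb F hF p hp) (hargb G hG p hp)
      have e1 : NN c d h F p - NN c d h G p =
          p.1 * (Gf c d (arg c d h F p) - Gf c d (arg c d h G p)) := by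
        unfold NN
        ring
      rw [e1, norm_mul]
      calc ‖p.1‖ * ‖Gf c d (arg c d h F p) - Gf c d (arg c d h G p)‖
          ≤ ε * (L * (K * δ)) := by
            refine mul_le_mul hp.1.le (h2.trans ?_) (norm_nonneg _) hε0.le
            gcongr
        _ = (ε * (2 * L * K)) * (δ / 2) := by ring
        _ ≤ 1 * (δ / 2) := by gcongr
        _ = δ / 2 := one_mul _)
    (by intro F hF; exact hF.2) (fun _ => 0)
    ⟨differentiableOn_const _, by intro p _; simp; linarith⟩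
  exact ⟨ε, r, hε0, hr0, ρ, hρB.1, hρ⟩

end Pool.Agent.R229.SkewNF
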